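import Pool.Agent.X302.C3.Gap

/-! The number of eigenvalues of small modulus of a representation with a dominated splitting. -/

set_option autoImplicit false
set_option linter.unusedSectionVars false

namespace Pool.Agent.X302.C3

open Matrix Topology
open scoped MatrixGroups

variable {n : Type} [Fintype n] [DecidableEq n]

theorem charpoly_split {V : Type} [AddCommGroup V] [Module ℂ V] [FiniteDimensional ℂ V]
    (f : Module.End ℂ V) {U W : Submodule ℂ V} (h : IsCompl U W) (hU : ∀ x ∈ U, f x ∈ U)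
    (hW : ∀ x ∈ W, f x ∈ W) :
    f.charpoly = (f.restrict hU).charpoly * (f.restrict hW).charpoly := by
  set e := U.prodEquivOfIsCompl W h with he
  have h1 : e.symm.conj f = (f.restrict hU).prodMap (f.restrict hW) := by
    apply LinearMap.ext
    intro x
    rw [LinearEquiv.conj_apply_apply, LinearEquiv.symm_symm, LinearEquiv.symm_apply_eq]
    rw [he, Submodule.coe_prodEquivOfIsCompl', Submodule.coe_prodEquivOfIsCompl', map_add]
    rfl
  rw [← e.symm.charpoly_conj f, h1, LinearMap.charpoly_prodMap]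

theorem isCompl_kerM {P : Matrix n n ℂ} (hP : P * P = P) : IsCompl (kerM (1 - P)) (kerM P) := by
  refine ⟨?_, ?_⟩
  · rw [disjoint_iff, Submodule.eq_bot_iff]
    rintro v ⟨h1, h2⟩
    rw [SetLike.mem_coe, ← rank_le_one_sub] at h1
    rw [SetLike.mem_coe, mem_kerM] at h2
    rw [← h1, h2]
  · rw [codisjoint_iff, Submodule.eq_top_iff']
    intro v
    rw [Submodule.mem_sup]
    refine ⟨P *ᵥ v, ?_, v - P *ᵥ v, ?_, by abel⟩
    · rw [← rank_le_one_sub, mulVec_mulVec, hP]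
    · rw [mem_kerM, mulVec_sub, mulVec_mulVec, hP, sub_self]

theorem restrict_root {V : Type} [AddCommGroup V] [Module ℂ V] [FiniteDimensional ℂ V]
    (f : Module.End ℂ V) {U : Submodule ℂ V} (hU : ∀ x ∈ U, f x ∈ U) {μ : ℂ}
    (hμ : μ ∈ (f.restrict hU).charpoly.roots) : ∃ v ∈ U, v ≠ 0 ∧ f v = μ • v := by
  have h1 : (f.restrict hU).charpoly.IsRoot μ := (Polynomial.mem_roots'.1 hμ).2
  rw [← Module.End.hasEigenvalue_iff_isRoot_charpoly] at h1
  obtain ⟨v, hv⟩ := h1.exists_hasEigenvector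
  refine ⟨v.1, v.2, fun h0 => hv.2 (Subtype.ext h0), ?_⟩
  have h2 := congrArg Subtype.val hv.apply_eq_smul
  rw [LinearMap.coe_restrict_apply] at h2
  exact h2

theorem exists_threshold {D : SurfaceGroup} {k : ℕ} {C c : ℝ} {ρ : Rep D.Γ n}
    {P : SL(2, ℝ) → Matrix n n ℂ} {N : SL(2, ℝ) → (n → ℂ) → ℝ} {γ : D.Γ} {g : SL(2, ℝ)} {T : ℝ}
    (H : IsSplitting D k C c ρ P N) (hc0 : 0 < c) (hk : k < Fintype.card n)
    (hγ : γ ∈ D.simple) (hT : 0 < T)
    (h : (γ : SL(2, ℝ)) * g = flow g T ∨ (γ : SL(2, ℝ)) * g = -flow g T) :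
    ∃ s : ℝ, ((Rep.mat ρ γ).charpoly.roots.filter fun z => ‖z‖ < s).card = k := by
  have hg := mem_F hγ hT h
  have hc := comm_proj H hg h
  obtain ⟨hP, hr⟩ := H.proj g hg
  set A := Rep.mat ρ γ with hA
  have hU : ∀ x ∈ kerM (1 - P g), toLin' A x ∈ kerM (1 - P g) := by
    intro v hv
    rw [← rank_le_one_sub] at hv ⊢
    rw [toLin'_apply, mulVec_mulVec, hc, ← mulVec_mulVec, hv]
  have hW : ∀ x ∈ kerM (P g), toLin' A x ∈ kerM (P g) := by
    intro v hv
    rw [mem_kerM] at hv ⊢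
    rw [toLin'_apply, mulVec_mulVec, hc, ← mulVec_mulVec, hv, mulVec_zero]
  have hsp := charpoly_split (toLin' A) (isCompl_kerM hP) hU hW
  rw [Matrix.charpoly_toLin'] at hsp
  set p₁ := (LinearMap.restrict (toLin' A) hU).charpoly with hp₁
  set p₂ := (LinearMap.restrict (toLin' A) hW).charpoly with hp₂
  have hm₁ : p₁.Monic := LinearMap.charpoly_monic _
  have hm₂ : p₂.Monic := LinearMap.charpoly_monic _
  have hroots : A.charpoly.roots = p₁.roots + p₂.roots := by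
    rw [hsp, Polynomial.roots_mul (mul_ne_zero hm₁.ne_zero hm₂.ne_zero)]
  have hcard₁ : p₁.roots.card = k := by
    rw [IsAlgClosed.card_roots_eq_natDegree, hp₁, LinearMap.charpoly_natDegree]
    have h1 := finrank_kerM (1 - P g)
    have h2 := rank_one_sub hP
    omega
  have hcard₂ : 0 < p₂.roots.card := by
    rw [IsAlgClosed.card_roots_eq_natDegree, hp₂, LinearMap.charpoly_natDegree]
    have h1 := finrank_kerM (P g)
    omega
  have hgap : ∀ μ ∈ p₁.roots, ∀ ν ∈ p₂.roots, ‖μ‖ < ‖ν‖ := by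
    intro μ hμ ν hν
    obtain ⟨v, hv, hv0, hAv⟩ := restrict_root (toLin' A) hU hμ
    obtain ⟨w, hw, hw0, hAw⟩ := restrict_root (toLin' A) hW hν
    rw [toLin'_apply] at hAv hAw
    have h3 := eig_gap H hg hT h hv0 hw0 hAv hAw (rank_le_one_sub.2 hv) (mem_kerM.1 hw)
    have h4 : 1 < Real.exp (c * T) := Real.one_lt_exp_iff.2 (mul_pos hc0 hT)
    have hμ0 : 0 < ‖μ‖ := by
      rw [norm_pos_iff]
      rintro rfl
      have h2 := norm_flow H hg h hAv 1
      rw [norm_zero, pow_one, zero_mul] at h2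
      exact ((H.norm g hg).pos v hv0).ne h2
    nlinarith
  obtain ⟨ν₀, hν₀, hmin⟩ : ∃ ν₀ ∈ p₂.roots, ∀ ν ∈ p₂.roots, ‖ν₀‖ ≤ ‖ν‖ := by
    have hne : p₂.roots.toFinset.Nonempty := by
      obtain ⟨ν, hν⟩ := Multiset.card_pos_iff_exists_mem.1 hcard₂
      exact ⟨ν, Multiset.mem_toFinset.2 hν⟩
    obtain ⟨ν₀, h1, h2⟩ := p₂.roots.toFinset.exists_min_image (fun z => ‖z‖) hne
    exact ⟨ν₀, Multiset.mem_toFinset.1 h1, fun ν hν => h2 ν (Multiset.mem_toFinset.2 hν)⟩
  refine ⟨‖ν₀‖, ?_⟩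
  rw [hroots, Multiset.filter_add, Multiset.card_add]
  have e1 : p₁.roots.filter (fun z => ‖z‖ < ‖ν₀‖) = p₁.roots :=
    Multiset.filter_eq_self.2 fun μ hμ => hgap μ hμ ν₀ hν₀
  have e2 : p₂.roots.filter (fun z => ‖z‖ < ‖ν₀‖) = 0 :=
    Multiset.filter_eq_nil.2 fun ν hν => not_lt.2 (hmin ν hν)
  rw [e1, e2, hcard₁, Multiset.card_zero, add_zero]

end Pool.Agent.X302.C3
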