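import Pool.Agent.X302.C3.Gap

/-! The representation `ι ⊕ ι` of a Fuchsian group `ι : Γ → SL(2, ℝ)` is simple `2`-Anosov. -/

set_option autoImplicit false
set_option linter.unusedSectionVars false

namespace Pool.Agent.X302.C3

open Matrix Topology
open scoped MatrixGroups

/-- The index set of the `4 × 4` matrices. -/
abbrev J : Type := Fin 2 ⊕ Fin 2

/-- The matrix `g ⊕ g`. -/
noncomputable def dblM (g : SL(2, ℝ)) : Matrix J J ℂ :=
  fromBlocks ((g : Matrix (Fin 2) (Fin 2) ℝ).map (algebraMap ℝ ℂ)) 0 0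
    ((g : Matrix (Fin 2) (Fin 2) ℝ).map (algebraMap ℝ ℂ))

theorem dblM_mul (g h : SL(2, ℝ)) : dblM (g * h) = dblM g * dblM h := by
  unfold dblM
  rw [Matrix.SpecialLinearGroup.coe_mul, fromBlocks_multiply, Matrix.map_mul]
  simp

theorem dblM_one : dblM 1 = 1 := by
  unfold dblM
  rw [Matrix.SpecialLinearGroup.coe_one, Matrix.map_one _ (map_zero _) (map_one _), fromBlocks_one]

theorem dblM_neg (g : SL(2, ℝ)) : dblM (-g) = -dblM g := by
  unfold dblM
  rw [Matrix.SpecialLinearGroup.coe_neg, fromBlocks_neg, neg_zero]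
  congr 1 <;> · ext i j; simp

theorem dblM_det (g : SL(2, ℝ)) : (dblM g).det = 1 := by
  unfold dblM
  rw [det_fromBlocks_zero₂₁]
  have h : ((g : Matrix (Fin 2) (Fin 2) ℝ).map (algebraMap ℝ ℂ)).det = 1 := by
    rw [← RingHom.mapMatrix_apply, ← RingHom.map_det, g.det_coe, map_one]
  rw [h, mul_one]

theorem dblM_charpoly (g : SL(2, ℝ)) : ∃ q : Polynomial ℂ, (dblM g).charpoly = q * q :=
  ⟨_, charpoly_fromBlocks_zero₂₁ _ _ _⟩

theorem continuous_dblM : Continuous dblM := by
  have h : Continuous fun g : SL(2, ℝ) =>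
      ((g : Matrix (Fin 2) (Fin 2) ℝ).map (algebraMap ℝ ℂ)) := by
    refine Continuous.matrix_map ?_ Complex.continuous_ofReal
    exact continuous_subtype_val
  exact Continuous.matrix_fromBlocks h continuous_const continuous_const h

/-- The homomorphism `g ↦ g ⊕ g`. -/
noncomputable def dbl : SL(2, ℝ) →* Matrix.SpecialLinearGroup J ℂ where
  toFun g := ⟨dblM g, dblM_det g⟩
  map_one' := Subtype.ext dblM_one
  map_mul' g h := Subtype.ext (dblM_mul g h)

/-- The representation `ι ⊕ ι`. -/
noncomputable def dblRep (D : SurfaceGroup) : Rep D.Γ J := dbl.comp D.Γ.subtype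

theorem mat_dblRep (D : SurfaceGroup) (γ : D.Γ) :
    Rep.mat (dblRep D) γ = dblM (γ : SL(2, ℝ)) := rfl

theorem dblM_inv_mul (g : SL(2, ℝ)) : dblM g⁻¹ * dblM g = 1 := by
  rw [← dblM_mul, inv_mul_cancel, dblM_one]

theorem dblM_mul_inv (g : SL(2, ℝ)) : dblM g * dblM g⁻¹ = 1 := by
  rw [← dblM_mul, mul_inv_cancel, dblM_one]

/-- The projection to the second coordinates. -/
def E : Matrix J J ℂ := diagonal (Sum.elim ![0, 1] ![0, 1])

/-- The projections to the unstable bundle. -/
noncomputable def PP (g : SL(2, ℝ)) : Matrix J J ℂ := dblM g * E * dblM g⁻¹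

/-- The norms. -/
noncomputable def NN (g : SL(2, ℝ)) (v : J → ℂ) : ℝ := ∑ i, ‖(dblM g⁻¹ *ᵥ v) i‖

theorem dblM_diag (t : ℝ) : dblM (diagEl t) = diagonal (Sum.elim
    ![(Real.exp (t / 2) : ℂ), (Real.exp (-(t / 2)) : ℂ)]
    ![(Real.exp (t / 2) : ℂ), (Real.exp (-(t / 2)) : ℂ)]) := by
  ext i j
  rcases i with i | i <;> rcases j with j | j <;> fin_cases i <;> fin_cases j <;>
    simp [dblM, diagEl]

theorem diagEl_inv (t : ℝ) : (diagEl t)⁻¹ = diagEl (-t) := by
  rw [inv_eq_iff_mul_eq_one, ← diagEl_add, add_neg_cancel, diagEl_zero]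

theorem E_mul_E : E * E = E := by
  unfold E
  rw [diagonal_mul_diagonal]
  congr 1
  funext i
  rcases i with i | i <;> fin_cases i <;> simp

theorem rank_E : E.rank = 2 := by
  unfold E
  rw [rank_diagonal, Fintype.card_subtype]
  have h : (Finset.univ.filter fun i : J => (Sum.elim ![(0 : ℂ), 1] ![0, 1] : J → ℂ) i ≠ 0) =
      {Sum.inl 1, Sum.inr 1} := by
    ext i
    rcases i with i | i <;> fin_cases i <;> simp
  rw [h]
  rfl

theorem conj_diag (t : ℝ) : dblM (diagEl t) * E * dblM (diagEl t)⁻¹ = E := by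
  rw [diagEl_inv, dblM_diag, dblM_diag, E, diagonal_mul_diagonal, diagonal_mul_diagonal]
  congr 1
  funext i
  rcases i with i | i <;> fin_cases i <;> simp [← Complex.exp_add] <;> ring_nf <;> simp

theorem isSplitting (D : SurfaceGroup) : IsSplitting D 2 1 1 (dblRep D) PP NN where
  contP := (((continuous_dblM).mul continuous_const).mul
    (continuous_dblM.comp continuous_inv)).continuousOn
  contN := by
    refine Continuous.continuousOn ?_
    refine continuous_finsetSum _ fun i _ => Continuous.norm ?_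
    exact (continuous_apply i).comp
      (((continuous_dblM.comp continuous_inv).comp continuous_fst).matrix_mulVec continuous_snd)
  norm g _ := by
    refine ⟨fun v hv => ?_, fun z v => ?_, fun v w => ?_⟩
    · have hne : dblM g⁻¹ *ᵥ v ≠ 0 := by
        intro h0
        apply hv
        have h1 : dblM g *ᵥ (dblM g⁻¹ *ᵥ v) = v := by
          rw [mulVec_mulVec, dblM_mul_inv, one_mulVec]
        rw [← h1, h0, mulVec_zero]
      obtain ⟨i, hi⟩ := Function.ne_iff.1 hne
      exact Finset.sum_pos' (fun _ _ => norm_nonneg _) ⟨i, Finset.mem_univ i, norm_pos_iff.2 hi⟩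
    · unfold NN
      rw [mulVec_smul, Finset.mul_sum]
      simp
    · unfold NN
      rw [mulVec_add, ← Finset.sum_add_distrib]
      exact Finset.sum_le_sum fun i _ => norm_add_le _ _
  proj g _ := by
    constructor
    · unfold PP
      calc dblM g * E * dblM g⁻¹ * (dblM g * E * dblM g⁻¹)
          = dblM g * E * (dblM g⁻¹ * dblM g) * E * dblM g⁻¹ := by simp only [mul_assoc]
        _ = dblM g * (E * E) * dblM g⁻¹ := by rw [dblM_inv_mul]; simp only [mul_assoc, one_mul]
        _ = _ := by rw [E_mul_E]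
    · unfold PP
      rw [rank_mul_eq_left_of_isUnit_det _ _ (by rw [dblM_det]; exact isUnit_one),
        rank_mul_eq_right_of_isUnit_det _ _ (by rw [dblM_det]; exact isUnit_one), rank_E]
  neg g _ := by
    have h : (-g)⁻¹ = -g⁻¹ := inv_neg
    constructor
    · unfold PP
      rw [h, dblM_neg, dblM_neg]
      simp
    · funext v
      unfold NN
      rw [h, dblM_neg]
      simp [neg_mulVec]
  equiv g _ γ := by
    constructor
    · rw [mat_dblRep]
      unfold PP
      rw [_root_.mul_inv_rev, dblM_mul, dblM_mul]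
      calc dblM γ * dblM g * E * (dblM g⁻¹ * dblM (γ : SL(2, ℝ))⁻¹) * dblM γ
          = dblM γ * (dblM g * E * dblM g⁻¹) * (dblM (γ : SL(2, ℝ))⁻¹ * dblM γ) := by
            simp only [mul_assoc]
        _ = _ := by rw [dblM_inv_mul, mul_one]
    · intro v
      rw [mat_dblRep]
      unfold NN
      rw [mulVec_mulVec, ← dblM_mul]
      congr 1
      funext i
      congr 4
      group
  inv g _ t := by
    unfold PP flow
    rw [_root_.mul_inv_rev, dblM_mul, dblM_mul]
    calc dblM g * dblM (diagEl t) * E * (dblM (diagEl t)⁻¹ * dblM g⁻¹)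
        = dblM g * (dblM (diagEl t) * E * dblM (diagEl t)⁻¹) * dblM g⁻¹ := by
          simp only [mul_assoc]
      _ = _ := by rw [conj_diag]
  dom g _ t _ v w hv hw := by
    set u := dblM g⁻¹ *ᵥ v with hu
    set u' := dblM g⁻¹ *ᵥ w with hu'
    have h1 : E *ᵥ u = u := by
      have h2 : dblM g⁻¹ *ᵥ (PP g *ᵥ v) = E *ᵥ u := by
        unfold PP
        rw [hu, mulVec_mulVec, mulVec_mulVec]
        congr 1
        calc dblM g⁻¹ * (dblM g * E * dblM g⁻¹) = (dblM g⁻¹ * dblM g) * E * dblM g⁻¹ := by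
              simp only [mul_assoc]
          _ = E * dblM g⁻¹ := by rw [dblM_inv_mul, one_mul]
      rw [← h2, hv]
    have h3 : E *ᵥ u' = 0 := by
      have h2 : dblM g⁻¹ *ᵥ (PP g *ᵥ w) = E *ᵥ u' := by
        unfold PP
        rw [hu', mulVec_mulVec, mulVec_mulVec]
        congr 1
        calc dblM g⁻¹ * (dblM g * E * dblM g⁻¹) = (dblM g⁻¹ * dblM g) * E * dblM g⁻¹ := by
              simp only [mul_assoc]
          _ = E * dblM g⁻¹ := by rw [dblM_inv_mul, one_mul]
      rw [← h2, hw, mulVec_zero]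
    have a0 : u (Sum.inl 0) = 0 := by
      have := congrFun h1 (Sum.inl 0)
      simpa [E, mulVec_diagonal] using this.symm
    have a1 : u (Sum.inr 0) = 0 := by
      have := congrFun h1 (Sum.inr 0)
      simpa [E, mulVec_diagonal] using this.symm
    have b0 : u' (Sum.inl 1) = 0 := by
      have := congrFun h3 (Sum.inl 1)
      simpa [E, mulVec_diagonal] using this
    have b1 : u' (Sum.inr 1) = 0 := by
      have := congrFun h3 (Sum.inr 1)
      simpa [E, mulVec_diagonal] using this
    have key : ∀ x : J → ℂ, NN (flow g t) x = ∑ i, ‖(dblM (diagEl (-t)) *ᵥ (dblM g⁻¹ *ᵥ x)) i‖ := by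
      intro x
      unfold NN flow
      rw [_root_.mul_inv_rev, dblM_mul, diagEl_inv, mulVec_mulVec]
    have e1 : NN (flow g t) w = Real.exp (-(t / 2)) * NN g w := by
      rw [key, ← hu']
      unfold NN
      rw [← hu', dblM_diag]
      simp only [mulVec_diagonal, Fintype.sum_sum_type, Fin.sum_univ_two, b0, b1]
      simp [neg_div, Complex.norm_exp]
      ring
    have e2 : NN (flow g t) v = Real.exp (t / 2) * NN g v := by
      rw [key, ← hu]
      unfold NN
      rw [← hu, dblM_diag]
      simp only [mulVec_diagonal, Fintype.sum_sum_type, Fin.sum_univ_two, a0, a1]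
      simp [neg_div, Complex.norm_exp]
      ring
    rw [e1, e2]
    have e3 : Real.exp (-(t / 2)) = Real.exp (-(1 * t)) * Real.exp (t / 2) := by
      rw [← Real.exp_add]; congr 1; ring
    rw [e3]
    exact le_of_eq (by ring)

end Pool.Agent.X302.C3
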