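import Mathlib

/-! Spectral radius of a complex matrix, by the roots of the characteristic polynomial. -/

namespace Pool.Agent.X302.C3

open Matrix

variable {n : Type} [Fintype n] [DecidableEq n]

/-- The greatest absolute value of the roots of a polynomial. -/
noncomputable def rad (p : Polynomial ℂ) : ℝ := sSup {r | ∃ z, p.IsRoot z ∧ r = ‖z‖}

/-- The sum of the absolute values of the entries. -/
noncomputable def ent (A : Matrix n n ℂ) : ℝ := ∑ i, ∑ j, ‖A i j‖

theorem ent_nonneg (A : Matrix n n ℂ) : 0 ≤ ent A :=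
  Finset.sum_nonneg fun _ _ => Finset.sum_nonneg fun _ _ => norm_nonneg _

theorem ent_mul_le (A B : Matrix n n ℂ) : ent (A * B) ≤ ent A * ent B := by
  unfold ent
  calc ∑ i, ∑ j, ‖(A * B) i j‖ ≤ ∑ i, ∑ j, ∑ k, ‖A i k‖ * ‖B k j‖ := by
        refine Finset.sum_le_sum fun i _ => Finset.sum_le_sum fun j _ => ?_
        rw [Matrix.mul_apply]
        refine (norm_sum_le _ _).trans (Finset.sum_le_sum fun k _ => ?_)
        rw [norm_mul]
    _ = ∑ i, ∑ k, ‖A i k‖ * ∑ j, ‖B k j‖ := by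
        refine Finset.sum_congr rfl fun i _ => ?_
        rw [Finset.sum_comm]
        refine Finset.sum_congr rfl fun k _ => ?_
        rw [Finset.mul_sum]
    _ ≤ ∑ i, ∑ k, ‖A i k‖ * ∑ k', ∑ j, ‖B k' j‖ := by
        refine Finset.sum_le_sum fun i _ => Finset.sum_le_sum fun k _ => ?_
        refine mul_le_mul_of_nonneg_left ?_ (norm_nonneg _)
        exact Finset.single_le_sum (f := fun k' => ∑ j, ‖B k' j‖)
          (fun k' _ => Finset.sum_nonneg fun _ _ => norm_nonneg _) (Finset.mem_univ k)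
    _ = (∑ i, ∑ k, ‖A i k‖) * ∑ k', ∑ j, ‖B k' j‖ := by
        rw [Finset.sum_mul]
        refine Finset.sum_congr rfl fun i _ => ?_
        rw [Finset.sum_mul]

theorem exists_eigenvector {A : Matrix n n ℂ} {z : ℂ} (hz : A.charpoly.IsRoot z) :
    ∃ v, v ≠ 0 ∧ A *ᵥ v = z • v := by
  have h : (scalar n z - A).det = 0 := by
    rw [← eval_charpoly]
    exact hz
  obtain ⟨v, hv, h2⟩ := exists_mulVec_eq_zero_iff.2 h
  refine ⟨v, hv, ?_⟩
  rw [sub_mulVec, sub_eq_zero] at h2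
  rw [← h2]
  simp

theorem isRoot_of_eigenvector {A : Matrix n n ℂ} {z : ℂ} {v : n → ℂ} (hv : v ≠ 0)
    (h : A *ᵥ v = z • v) : A.charpoly.IsRoot z := by
  rw [Polynomial.IsRoot.def, eval_charpoly]
  refine exists_mulVec_eq_zero_iff.1 ⟨v, hv, ?_⟩
  rw [sub_mulVec, sub_eq_zero, h]
  simp

theorem norm_le_ent {A : Matrix n n ℂ} {z : ℂ} (hz : A.charpoly.IsRoot z) : ‖z‖ ≤ ent A := by
  obtain ⟨v, hv, h⟩ := exists_eigenvector hz
  have hne : Nonempty n := by
    by_contra hc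
    rw [not_nonempty_iff] at hc
    exact hv (Subsingleton.elim _ _)
  obtain ⟨i, hi⟩ := Finite.exists_max fun i => ‖v i‖
  have hpos : 0 < ‖v i‖ := by
    rw [norm_pos_iff]
    intro h0
    refine hv (funext fun j => ?_)
    have := hi j
    rw [h0, norm_zero] at this
    exact norm_le_zero_iff.1 this
  have h1 : ‖z‖ * ‖v i‖ ≤ ent A * ‖v i‖ := by
    calc ‖z‖ * ‖v i‖ = ‖(A *ᵥ v) i‖ := by rw [h]; simp
      _ ≤ ∑ j, ‖A i j‖ * ‖v j‖ := by
          rw [mulVec, dotProduct]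
          refine (norm_sum_le _ _).trans (Finset.sum_le_sum fun j _ => ?_)
          rw [norm_mul]
      _ ≤ ∑ j, ‖A i j‖ * ‖v i‖ :=
          Finset.sum_le_sum fun j _ => mul_le_mul_of_nonneg_left (hi j) (norm_nonneg _)
      _ = (∑ j, ‖A i j‖) * ‖v i‖ := by rw [Finset.sum_mul]
      _ ≤ ent A * ‖v i‖ := by
          refine mul_le_mul_of_nonneg_right ?_ hpos.le
          exact Finset.single_le_sum (f := fun i => ∑ j, ‖A i j‖)
            (fun _ _ => Finset.sum_nonneg fun _ _ => norm_nonneg _) (Finset.mem_univ i)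
  exact le_of_mul_le_mul_right h1 hpos

theorem le_rad {A : Matrix n n ℂ} {z : ℂ} (hz : A.charpoly.IsRoot z) : ‖z‖ ≤ rad A.charpoly :=
  le_csSup ⟨ent A, by rintro _ ⟨w, hw, rfl⟩; exact norm_le_ent hw⟩ ⟨z, hz, rfl⟩

theorem rad_le_ent (A : Matrix n n ℂ) : rad A.charpoly ≤ ent A :=
  Real.sSup_le (by rintro _ ⟨w, hw, rfl⟩; exact norm_le_ent hw) (ent_nonneg A)

theorem rad_nonneg (p : Polynomial ℂ) : 0 ≤ rad p :=
  Real.sSup_nonneg (by rintro _ ⟨w, hw, rfl⟩; exact norm_nonneg w)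

end Pool.Agent.X302.C3
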