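import Pool.Agent.X302.C3.Words
import Pool.Agent.X302.C3.Rad

/-! The domain of discontinuity on the character variety. -/

set_option autoImplicit false
set_option linter.unusedSectionVars false

namespace Pool.Agent.X302.C3

open Matrix Topology

section defs

variable (Γ : Type) [Group Γ] (n : Type) [Fintype n] [DecidableEq n]

/-- The representations of the group `Γ` in `SL(n, ℂ)`. -/
abbrev Rep : Type := Γ →* SpecialLinearGroup n ℂ

/-- The topology of pointwise convergence. -/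
noncomputable instance : TopologicalSpace (Rep Γ n) :=
  TopologicalSpace.induced (fun (ρ : Rep Γ n) (γ : Γ) => ρ γ) inferInstance

/-- The matrix of `γ` in the representation `ρ`. -/
def Rep.mat {Γ : Type} [Group Γ] {n : Type} [Fintype n] [DecidableEq n] (ρ : Rep Γ n) (γ : Γ) :
    Matrix n n ℂ := (ρ γ : Matrix n n ℂ)

/-- Two representations are equivalent if `ρ γ` and `ρ' γ` have the same characteristic polynomial
for all `γ`. -/
instance sameChar : Setoid (Rep Γ n) where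
  r ρ ρ' := ∀ γ, (Rep.mat ρ γ).charpoly = (Rep.mat ρ' γ).charpoly
  iseqv := ⟨fun _ _ => rfl, fun h γ => (h γ).symm, fun h h' γ => (h γ).trans (h' γ)⟩

/-- The character variety (its points: the representations up to `sameChar`; its topology: the
quotient topology). -/
def CharVar : Type := Quotient (sameChar Γ n)

noncomputable instance : TopologicalSpace (CharVar Γ n) :=
  inferInstanceAs (TopologicalSpace (Quotient (sameChar Γ n)))

end defs

variable {Γ : Type} [Group Γ] {n : Type} [Fintype n] [DecidableEq n]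

/-- The class of a representation. -/
def Rep.cls (ρ : Rep Γ n) : CharVar Γ n := Quotient.mk _ ρ

/-- The action of the automorphisms of `Γ` by precomposition. -/
def precomp (φ : Γ ≃* Γ) : CharVar Γ n → CharVar Γ n :=
  Quotient.map (fun ρ : Rep Γ n => MonoidHom.comp ρ φ.toMonoidHom)
    (fun _ _ h γ => h (φ γ))

/-- The function `log |λ₁ / λ_d|` of `γ`: the logarithm of the product of the spectral radii of `ρ γ`
and of `ρ γ⁻¹`. -/
noncomputable def Len (x : CharVar Γ n) (γ : Γ) : ℝ :=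
  Quotient.liftOn x
    (fun ρ => Real.log (rad (Rep.mat ρ γ).charpoly) + Real.log (rad (Rep.mat ρ γ⁻¹).charpoly))
    (fun ρ ρ' h => by simp only [h γ, h γ⁻¹])

/-- The classes near which `Len` is at least `c` times the length of the conjugacy class, for all
elements of `simple`. -/
def Omega (S simple : Set Γ) : Set (CharVar Γ n) :=
  {x | ∃ V ∈ 𝓝 x, ∃ c : ℝ, 0 < c ∧ ∀ y ∈ V, ∀ γ ∈ simple, c * clen S γ ≤ Len y γ}

theorem Len_cls (ρ : Rep Γ n) (γ : Γ) :
    Len (Rep.cls ρ) γ = Real.log (rad (Rep.mat ρ γ).charpoly) + Real.log (rad (Rep.mat ρ γ⁻¹).charpoly) := rfl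

theorem mat_mul (ρ : Rep Γ n) (γ δ : Γ) : Rep.mat ρ (γ * δ) = Rep.mat ρ γ * Rep.mat ρ δ := by
  unfold Rep.mat
  rw [map_mul]
  exact Matrix.SpecialLinearGroup.coe_mul _ _

theorem mat_one (ρ : Rep Γ n) : Rep.mat ρ 1 = 1 := by
  unfold Rep.mat
  rw [map_one]
  exact Matrix.SpecialLinearGroup.coe_one

theorem charpoly_conj (ρ : Rep Γ n) (γ δ : Γ) :
    (Rep.mat ρ (δ * γ * δ⁻¹)).charpoly = (Rep.mat ρ γ).charpoly := by
  rw [mat_mul, Matrix.charpoly_mul_comm, ← mat_mul]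
  simp

theorem continuous_mat (γ : Γ) : Continuous fun ρ : Rep Γ n => Rep.mat ρ γ := by
  have h : Continuous (fun (ρ : Rep Γ n) (γ : Γ) => ρ γ) := continuous_induced_dom
  exact continuous_subtype_val.comp ((continuous_apply γ).comp h)

theorem continuous_cls : Continuous (Rep.cls : Rep Γ n → CharVar Γ n) := continuous_quotient_mk'

theorem precomp_cls (φ : Γ ≃* Γ) (x : CharVar Γ n) (γ : Γ) : Len (precomp φ x) γ = Len x (φ γ) := by
  induction x using Quotient.inductionOn with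
  | h ρ =>
    change Real.log (rad (Rep.mat ρ (φ γ)).charpoly) + Real.log (rad (Rep.mat ρ (φ γ⁻¹)).charpoly) =
      Real.log (rad (Rep.mat ρ (φ γ)).charpoly) + Real.log (rad (Rep.mat ρ (φ γ)⁻¹).charpoly)
    rw [map_inv]

theorem precomp_symm (φ : Γ ≃* Γ) (x : CharVar Γ n) : precomp φ.symm (precomp φ x) = x := by
  induction x using Quotient.inductionOn with
  | h ρ =>
    refine Quotient.sound fun γ => ?_
    change (Rep.mat ρ (φ (φ.symm γ))).charpoly = _
    rw [φ.apply_symm_apply]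

theorem continuous_precomp (φ : Γ ≃* Γ) : Continuous (precomp φ : CharVar Γ n → CharVar Γ n) := by
  refine Continuous.quotient_map' ?_ _
  refine continuous_induced_rng.2 (continuous_pi fun γ => ?_)
  have h : Continuous (fun (ρ : Rep Γ n) (γ : Γ) => ρ γ) := continuous_induced_dom
  exact (continuous_apply (φ γ)).comp h

theorem isOpen_Omega (S simple : Set Γ) : IsOpen (Omega S simple : Set (CharVar Γ n)) := by
  rw [isOpen_iff_mem_nhds]
  rintro x ⟨V, hV, c, hc, h⟩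
  filter_upwards [eventually_mem_nhds_iff.2 hV] with y hy
  exact ⟨V, hy, c, hc, h⟩

theorem precomp_mem_Omega {S simple : Set Γ} (hfin : S.Finite) (hS : Subgroup.closure S = ⊤)
    (hinv : ∀ φ : Γ ≃* Γ, ∀ γ ∈ simple, φ γ ∈ simple) (φ : Γ ≃* Γ) {x : CharVar Γ n}
    (hx : x ∈ Omega S simple) : precomp φ x ∈ Omega S simple := by
  obtain ⟨V, hV, c, hc, h⟩ := hx
  obtain ⟨M, hM⟩ := exists_clen_map_le hfin hS φ.symm
  refine ⟨precomp φ.symm ⁻¹' V, ?_, c / (M + 1), by positivity, fun y hy γ hγ => ?_⟩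
  · refine (continuous_precomp φ.symm).continuousAt.preimage_mem_nhds ?_
    rw [precomp_symm]
    exact hV
  · have h1 := h _ hy (φ γ) (hinv φ γ hγ)
    rw [precomp_cls, φ.symm_apply_apply] at h1
    have h2 : (clen S γ : ℝ) ≤ M * clen S (φ γ) := by
      have := hM (φ γ)
      rw [φ.symm_apply_apply] at this
      exact_mod_cast this
    have h3 : (clen S γ : ℝ) ≤ (M + 1) * clen S (φ γ) :=
      h2.trans (by have : (0 : ℝ) ≤ clen S (φ γ) := Nat.cast_nonneg _; nlinarith)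
    calc c / (M + 1) * clen S γ ≤ c / (M + 1) * ((M + 1) * clen S (φ γ)) :=
          mul_le_mul_of_nonneg_left h3 (by positivity)
      _ = c * clen S (φ γ) := by field_simp
      _ ≤ Len y γ := h1

theorem rad_one_le : rad ((1 : Matrix n n ℂ).charpoly) ≤ 1 := by
  refine Real.sSup_le ?_ zero_le_one
  rintro _ ⟨z, hz, rfl⟩
  obtain ⟨v, hv, h⟩ := exists_eigenvector hz
  rw [one_mulVec] at h
  have h2 : (1 - z) • v = 0 := by rw [sub_smul, one_smul, ← h, sub_self]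
  rcases smul_eq_zero.1 h2 with h3 | h3
  · rw [← sub_eq_zero.1 h3, norm_one]
  · exact absurd h3 hv

theorem ent_word_le {ρ : Rep Γ n} {S : Set Γ} {B : ℝ} (hB : ∀ x, (x ∈ S ∨ x⁻¹ ∈ S) →
    ent (Rep.mat ρ x) ≤ B) : ∀ (l : List Γ) (a : Γ), (∀ x ∈ l, x ∈ S ∨ x⁻¹ ∈ S) → (a ∈ S ∨ a⁻¹ ∈ S) →
    ent (Rep.mat ρ (a :: l).prod) ≤ B ^ (a :: l).length
  | [], a, _, ha => by simpa using hB a ha
  | b :: l, a, hl, ha => by
    have h1 := ent_word_le hB l b (fun x hx => hl x (List.mem_cons_of_mem _ hx))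
      (hl b List.mem_cons_self)
    rw [List.prod_cons, mat_mul, List.length_cons, pow_succ, mul_comm (B ^ _)]
    exact (ent_mul_le _ _).trans (mul_le_mul (hB a ha) h1 (ent_nonneg _)
      ((ent_nonneg _).trans (hB a ha)))

theorem log_rad_le {ρ : Rep Γ n} {S : Set Γ} {B : ℝ} (hB1 : 1 ≤ B)
    (hB : ∀ x, (x ∈ S ∨ x⁻¹ ∈ S) → ent (Rep.mat ρ x) ≤ B) (l : List Γ)
    (hl : ∀ x ∈ l, x ∈ S ∨ x⁻¹ ∈ S) :
    Real.log (rad (Rep.mat ρ l.prod).charpoly) ≤ Real.log B * l.length := by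
  have h1 : rad (Rep.mat ρ l.prod).charpoly ≤ B ^ l.length := by
    cases l with
    | nil =>
      rw [List.prod_nil, mat_one]
      simpa using rad_one_le
    | cons a l =>
      exact (rad_le_ent _).trans (ent_word_le hB l a (fun x hx => hl x (List.mem_cons_of_mem _ hx))
        (hl a List.mem_cons_self))
  rcases (rad_nonneg (Rep.mat ρ l.prod).charpoly).eq_or_lt with h | h
  · rw [← h, Real.log_zero]
    exact mul_nonneg (Real.log_nonneg hB1) (Nat.cast_nonneg _)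
  · have h2 := Real.log_le_log h h1
    rw [Real.log_pow] at h2
    linarith

theorem exists_Len_le {S : Set Γ} (hfin : S.Finite) (hS : Subgroup.closure S = ⊤)
    {K : Set (Rep Γ n)} (hK : IsCompact K) :
    ∃ M : ℝ, 0 ≤ M ∧ ∀ ρ ∈ K, ∀ γ, Len (Rep.cls ρ) γ ≤ M * clen S γ := by
  have hent : ∀ γ : Γ, Continuous fun ρ : Rep Γ n => ent (Rep.mat ρ γ) := fun γ =>
    continuous_finsetSum _ fun i _ => continuous_finsetSum _ fun j _ =>
      ((continuous_mat γ).matrix_elem i j).norm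
  have hT : (S ∪ S⁻¹).Finite := hfin.union hfin.inv
  have hb : ∀ γ : Γ, ∃ B : ℝ, ∀ ρ ∈ K, ent (Rep.mat ρ γ) ≤ B := fun γ => by
    obtain ⟨B, hB⟩ := hK.bddAbove_image (hent γ).continuousOn
    exact ⟨B, fun ρ hρ => hB ⟨ρ, hρ, rfl⟩⟩
  choose b hb using hb
  obtain ⟨B₀, hB₀⟩ := (hT.image b).bddAbove
  set B : ℝ := max 1 B₀
  have hB1 : 1 ≤ B := le_max_left _ _
  have hB : ∀ ρ ∈ K, ∀ x, (x ∈ S ∨ x⁻¹ ∈ S) → ent (Rep.mat ρ x) ≤ B := fun ρ hρ x hx => by
    have hx' : x ∈ S ∪ S⁻¹ := hx.imp id fun h => Set.mem_inv.2 h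
    exact (hb x ρ hρ).trans ((hB₀ ⟨x, hx', rfl⟩).trans (le_max_right _ _))
  refine ⟨2 * Real.log B, mul_nonneg zero_le_two (Real.log_nonneg hB1), fun ρ hρ γ => ?_⟩
  obtain ⟨δ, l, hlen, hl, hp⟩ := clen_spec hS γ
  have h1 := log_rad_le hB1 (hB ρ hρ) l hl
  have h2 := log_rad_le hB1 (hB ρ hρ) (l.map fun x => x⁻¹).reverse (by
    intro x hx
    rw [List.mem_reverse, List.mem_map] at hx
    obtain ⟨y, hy, rfl⟩ := hx
    rcases hl y hy with h | h
    · exact Or.inr (by rwa [inv_inv])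
    · exact Or.inl h)
  rw [← List.prod_inv_reverse, hp] at h2
  rw [hp, charpoly_conj] at h1
  have h3 : (δ * γ * δ⁻¹)⁻¹ = δ * γ⁻¹ * δ⁻¹ := by group
  rw [h3, charpoly_conj, List.length_reverse, List.length_map] at h2
  rw [Len_cls, ← hlen]
  linarith

/-- The automorphisms which move a compact set of the domain to itself form finitely many classes. -/
theorem properlyDiscontinuous {S simple : Set Γ} (hfin : S.Finite) (hS : Subgroup.closure S = ⊤)
    (hinv : ∀ φ : Γ ≃* Γ, ∀ γ ∈ simple, φ γ ∈ simple)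
    (hprop : ∀ R : ℝ, ∃ F : Set (MulAut Γ), F.Finite ∧ ∀ φ : MulAut Γ,
      (∀ γ ∈ simple, (clen S (φ γ) : ℝ) ≤ R * clen S γ) → ∃ ψ ∈ F, ∃ δ, φ = ψ * MulAut.conj δ)
    {K : Set (Rep Γ n)} (hK : IsCompact K) (hKO : ∀ ρ ∈ K, Rep.cls ρ ∈ Omega S simple) :
    ∃ F : Set (MulAut Γ), F.Finite ∧ ∀ φ : MulAut Γ,
      (∃ ρ ∈ K, ∃ ρ' ∈ K, precomp φ (Rep.cls ρ) = Rep.cls ρ') → ∃ ψ ∈ F, ∃ δ, φ = ψ * MulAut.conj δ := by
  have hc : ∃ c : ℝ, 0 < c ∧ ∀ ρ ∈ K, ∀ γ ∈ simple, c * clen S γ ≤ Len (Rep.cls ρ) γ := by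
    refine hK.induction_on (p := fun s => ∃ c : ℝ, 0 < c ∧ ∀ ρ ∈ s, ∀ γ ∈ simple,
      c * clen S γ ≤ Len (Rep.cls ρ) γ) ⟨1, one_pos, fun ρ hρ => absurd hρ (Set.notMem_empty _)⟩ ?_ ?_ ?_
    · rintro s t hst ⟨c, hc, h⟩
      exact ⟨c, hc, fun ρ hρ => h ρ (hst hρ)⟩
    · rintro s t ⟨c, hc, h⟩ ⟨c', hc', h'⟩
      refine ⟨min c c', lt_min hc hc', ?_⟩
      rintro ρ (hρ | hρ) γ hγ
      · exact (mul_le_mul_of_nonneg_right (min_le_left _ _) (Nat.cast_nonneg _)).trans (h ρ hρ γ hγ)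
      · exact (mul_le_mul_of_nonneg_right (min_le_right _ _) (Nat.cast_nonneg _)).trans
          (h' ρ hρ γ hγ)
    · intro ρ hρ
      obtain ⟨V, hV, c, hc, h⟩ := hKO ρ hρ
      exact ⟨Rep.cls ⁻¹' V, mem_nhdsWithin_of_mem_nhds
        (continuous_cls.continuousAt.preimage_mem_nhds hV), c, hc, fun ρ' hρ' => h _ hρ'⟩
  obtain ⟨c, hc, hcK⟩ := hc
  obtain ⟨M, hM0, hM⟩ := exists_Len_le hfin hS hK
  obtain ⟨F, hF, h⟩ := hprop (M / c)
  refine ⟨F, hF, fun φ hφ => h φ fun γ hγ => ?_⟩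
  obtain ⟨ρ, hρ, ρ', hρ', e⟩ := hφ
  have h1 := hcK ρ hρ (φ γ) (hinv φ γ hγ)
  have h2 : Len (Rep.cls ρ) (φ γ) ≤ M * clen S γ := by
    have h3 := hM ρ' hρ' γ
    rw [← e, precomp_cls] at h3
    exact h3
  rw [div_mul_eq_mul_div, le_div_iff₀ hc]
  linarith

end Pool.Agent.X302.C3
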