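import Pool.Agent.X302.C3.Domain

/-! Dominated splittings over the Birman–Series set. -/

set_option autoImplicit false
set_option linter.unusedSectionVars false

namespace Pool.Agent.X302.C3

open Matrix Topology
open scoped MatrixGroups

/-- The matrix `diag (exp (t/2), exp (-t/2))`. -/
noncomputable def diagEl (t : ℝ) : SL(2, ℝ) :=
  ⟨!![Real.exp (t / 2), 0; 0, Real.exp (-(t / 2))], by
    rw [det_fin_two_of, mul_zero, sub_zero, ← Real.exp_add]; simp⟩

/-- The geodesic flow on `T¹ℍ² = SL(2, ℝ) / ± 1`. -/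
noncomputable def flow (g : SL(2, ℝ)) (t : ℝ) : SL(2, ℝ) := g * diagEl t

/-- A surface group with its simple closed curves. -/
structure SurfaceGroup where
  /-- the group, a group of isometries of `ℍ²` -/
  Γ : Subgroup SL(2, ℝ)
  /-- generators -/
  S : Set Γ
  finite : S.Finite
  closure_eq : Subgroup.closure S = ⊤
  /-- the simple closed curves -/
  simple : Set Γ
  nonempty : simple.Nonempty
  /-- automorphisms map simple closed curves to simple closed curves -/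
  aut : ∀ φ : Γ ≃* Γ, ∀ γ ∈ simple, φ γ ∈ simple
  /-- only finitely many mapping classes multiply the lengths of all simple closed curves at most by
  `R` -/
  proper : ∀ R : ℝ, ∃ F : Set (MulAut Γ), F.Finite ∧ ∀ φ : MulAut Γ,
    (∀ γ ∈ simple, (clen S (φ γ) : ℝ) ≤ R * clen S γ) → ∃ ψ ∈ F, ∃ δ, φ = ψ * MulAut.conj δ
  /-- each simple closed curve is a closed geodesic, of length `T ≥ a * clen` -/
  axis : ∃ a : ℝ, 0 < a ∧ ∀ γ ∈ simple, ∃ (g : SL(2, ℝ)) (T : ℝ), 0 < T ∧ a * clen S γ ≤ T ∧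
    ((γ : SL(2, ℝ)) * g = flow g T ∨ (γ : SL(2, ℝ)) * g = -flow g T)

/-- The Birman–Series set (its preimage in `SL(2, ℝ)`): the closure of the union of the lifts of the
simple closed geodesics. -/
def SurfaceGroup.F (D : SurfaceGroup) : Set SL(2, ℝ) :=
  closure {g | ∃ γ ∈ D.simple, ∃ T : ℝ, 0 < T ∧
    ((γ : SL(2, ℝ)) * g = flow g T ∨ (γ : SL(2, ℝ)) * g = -flow g T)}

variable {n : Type} [Fintype n] [DecidableEq n]

/-- `N` is a norm on `ℂ^n`. -/
structure IsNorm (N : (n → ℂ) → ℝ) : Prop where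
  pos : ∀ v, v ≠ 0 → 0 < N v
  smul : ∀ (z : ℂ) v, N (z • v) = ‖z‖ * N v
  add : ∀ v w, N (v + w) ≤ N v + N w

/-- A dominated splitting of rank `k` of the flat bundle of `ρ` over the Birman–Series set, with the
constants `C`, `c`: the bundle lifts to `F × ℂ^n`, where the flow acts trivially on `ℂ^n`; `P g` is the
projection to `E^u` along `E^s`, and `N g` is the norm of the continuous metric. -/
structure IsSplitting (D : SurfaceGroup) (k : ℕ) (C c : ℝ) (ρ : Rep D.Γ n)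
    (P : SL(2, ℝ) → Matrix n n ℂ) (N : SL(2, ℝ) → (n → ℂ) → ℝ) : Prop where
  contP : ContinuousOn P D.F
  contN : ContinuousOn (fun p : SL(2, ℝ) × (n → ℂ) => N p.1 p.2) (D.F ×ˢ Set.univ)
  norm : ∀ g ∈ D.F, IsNorm (N g)
  proj : ∀ g ∈ D.F, P g * P g = P g ∧ (P g).rank = k
  neg : ∀ g ∈ D.F, P (-g) = P g ∧ N (-g) = N g
  equiv : ∀ g ∈ D.F, ∀ γ : D.Γ, P (γ * g) * Rep.mat ρ γ = Rep.mat ρ γ * P g ∧
    ∀ v, N (γ * g) (Rep.mat ρ γ *ᵥ v) = N g v
  inv : ∀ g ∈ D.F, ∀ t, P (flow g t) = P g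
  dom : ∀ g ∈ D.F, ∀ t, 0 ≤ t → ∀ v w, P g *ᵥ v = v → P g *ᵥ w = 0 →
    N (flow g t) w * N g v ≤ C * Real.exp (-(c * t)) * (N (flow g t) v * N g w)

/-- `ρ` is simple `k`-Anosov with the constants `C`, `c`. -/
def SimpleAnosov (D : SurfaceGroup) (k : ℕ) (C c : ℝ) (ρ : Rep D.Γ n) : Prop :=
  ∃ P N, IsSplitting D k C c ρ P N

theorem diagEl_add (s t : ℝ) : diagEl (s + t) = diagEl s * diagEl t := by
  refine Subtype.ext ?_
  rw [Matrix.SpecialLinearGroup.coe_mul]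
  change !![Real.exp ((s + t) / 2), 0; 0, Real.exp (-((s + t) / 2))] =
    !![Real.exp (s / 2), 0; 0, Real.exp (-(s / 2))] *
      !![Real.exp (t / 2), 0; 0, Real.exp (-(t / 2))]
  have e1 : Real.exp ((s + t) / 2) = Real.exp (s / 2) * Real.exp (t / 2) := by
    rw [← Real.exp_add]; congr 1; ring
  have e2 : Real.exp (-((s + t) / 2)) = Real.exp (-(s / 2)) * Real.exp (-(t / 2)) := by
    rw [← Real.exp_add]; congr 1; ring
  rw [Matrix.mul_fin_two, e1, e2]
  simp

theorem flow_flow (g : SL(2, ℝ)) (s t : ℝ) : flow (flow g s) t = flow g (s + t) := by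
  unfold flow
  rw [diagEl_add, mul_assoc]

theorem diagEl_zero : diagEl 0 = 1 := by
  have h := diagEl_add 0 0
  rw [add_zero] at h
  exact mul_left_cancel (a := diagEl 0) (by rw [mul_one, ← h])

theorem flow_zero (g : SL(2, ℝ)) : flow g 0 = g := by
  unfold flow
  rw [diagEl_zero, mul_one]

theorem flow_mem_F {D : SurfaceGroup} {g : SL(2, ℝ)} (hg : g ∈ D.F) (t : ℝ) : flow g t ∈ D.F := by
  have hc : Continuous fun x : SL(2, ℝ) => x * diagEl t := continuous_id.mul continuous_const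
  refine map_mem_closure (f := fun x : SL(2, ℝ) => x * diagEl t) hc hg ?_
  rintro x ⟨γ, hγ, T, hT, h⟩
  refine ⟨γ, hγ, T, hT, ?_⟩
  have e : flow x T * diagEl t = flow (x * diagEl t) T := by
    unfold flow
    rw [mul_assoc, ← diagEl_add, mul_assoc, ← diagEl_add, add_comm]
  rcases h with h | h
  · left
    rw [← mul_assoc, h, e]
  · right
    rw [← mul_assoc, h, neg_mul, e]

theorem axis_pow {γ g : SL(2, ℝ)} {T : ℝ} (h : γ * g = flow g T ∨ γ * g = -flow g T) (m : ℕ) :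
    γ ^ m * g = flow g (m * T) ∨ γ ^ m * g = -flow g (m * T) := by
  induction m with
  | zero => left; simp [flow_zero]
  | succ m ih =>
    have e : flow (flow g T) (m * T) = flow g ((m + 1 : ℕ) * T) := by
      rw [flow_flow]
      congr 1
      push_cast
      ring
    have e2 : γ ^ (m + 1) * g = γ * (γ ^ m * g) := by rw [pow_succ', mul_assoc]
    have e3 : γ * flow g (m * T) = (γ * g) * diagEl (m * T) := by
      unfold flow
      rw [mul_assoc]
    have e4 : flow g T * diagEl (m * T) = flow g ((m + 1 : ℕ) * T) := e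
    rw [e2]
    rcases ih with ih | ih <;> rcases h with h | h <;> rw [ih]
    · left; rw [e3, h, e4]
    · right; rw [e3, h, neg_mul, e4]
    · right; rw [mul_neg, e3, h, e4]
    · left; rw [mul_neg, e3, h, neg_mul, neg_neg, e4]

theorem growth {x y C : ℝ} (_ : 0 ≤ x) (hy : 0 < y) (h : ∀ m : ℕ, x ^ m ≤ C * y ^ m) : x ≤ y := by
  by_contra hc
  push Not at hc
  have h1 : 1 < x / y := (one_lt_div hy).2 hc
  obtain ⟨m, hm⟩ := pow_unbounded_of_one_lt C h1
  have h2 := h m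
  rw [div_pow, lt_div_iff₀ (pow_pos hy m)] at hm
  linarith

section splitting

variable {D : SurfaceGroup} {k : ℕ} {C c : ℝ} {ρ : Rep D.Γ n} {P : SL(2, ℝ) → Matrix n n ℂ}
  {N : SL(2, ℝ) → (n → ℂ) → ℝ} {γ : D.Γ} {g : SL(2, ℝ)} {T : ℝ}

theorem comm_proj (H : IsSplitting D k C c ρ P N) (hg : g ∈ D.F)
    (h : (γ : SL(2, ℝ)) * g = flow g T ∨ (γ : SL(2, ℝ)) * g = -flow g T) :
    P g * Rep.mat ρ γ = Rep.mat ρ γ * P g := by
  have h1 := (H.equiv g hg γ).1
  have h2 : P ((γ : SL(2, ℝ)) * g) = P g := by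
    rcases h with h | h
    · rw [h, H.inv g hg]
    · rw [h, (H.neg _ (flow_mem_F hg T)).1, H.inv g hg]
  rwa [h2] at h1

theorem mat_pow_eig {μ : ℂ} {v : n → ℂ} (hv : Rep.mat ρ γ *ᵥ v = μ • v) (m : ℕ) :
    Rep.mat ρ (γ ^ m) *ᵥ v = μ ^ m • v := by
  induction m with
  | zero => rw [pow_zero, mat_one, one_mulVec, pow_zero, one_smul]
  | succ m ih => rw [pow_succ, mat_mul, ← mulVec_mulVec, hv, mulVec_smul, ih, smul_smul, pow_succ,
      mul_comm]

theorem norm_flow (H : IsSplitting D k C c ρ P N) (hg : g ∈ D.F)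
    (h : (γ : SL(2, ℝ)) * g = flow g T ∨ (γ : SL(2, ℝ)) * g = -flow g T) {μ : ℂ} {v : n → ℂ}
    (hv : Rep.mat ρ γ *ᵥ v = μ • v) (m : ℕ) :
    ‖μ‖ ^ m * N (flow g (m * T)) v = N g v := by
  have h1 := (H.equiv g hg (γ ^ m)).2 v
  rw [mat_pow_eig hv] at h1
  have h2 : N (((γ ^ m : D.Γ) : SL(2, ℝ)) * g) = N (flow g (m * T)) := by
    rw [Subgroup.coe_pow]
    rcases axis_pow h m with h3 | h3
    · rw [h3]
    · rw [h3, (H.neg _ (flow_mem_F hg _)).2]
  rw [h2, (H.norm _ (flow_mem_F hg _)).smul, norm_pow] at h1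
  exact h1

theorem eig_gap (H : IsSplitting D k C c ρ P N) (hg : g ∈ D.F) (hT : 0 < T)
    (h : (γ : SL(2, ℝ)) * g = flow g T ∨ (γ : SL(2, ℝ)) * g = -flow g T) {μ ν : ℂ} {v w : n → ℂ}
    (hv0 : v ≠ 0) (hw0 : w ≠ 0) (hv : Rep.mat ρ γ *ᵥ v = μ • v) (hw : Rep.mat ρ γ *ᵥ w = ν • w)
    (hPv : P g *ᵥ v = v) (hPw : P g *ᵥ w = 0) : ‖μ‖ * Real.exp (c * T) ≤ ‖ν‖ := by
  have hNv := (H.norm g hg).pos v hv0
  have hNw := (H.norm g hg).pos w hw0
  have hν : 0 < ‖ν‖ := by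
    have h1 := norm_flow H hg h hw 1
    rcases (norm_nonneg ν).eq_or_lt with h2 | h2
    · rw [← h2, pow_one, zero_mul] at h1
      exact absurd h1 hNw.ne
    · exact h2
  refine growth (C := C) (mul_nonneg (norm_nonneg _) (Real.exp_pos _).le) hν fun m => ?_
  have h1 := H.dom g hg (m * T) (by positivity) v w hPv hPw
  have h2 := norm_flow H hg h hv m
  have h3 := norm_flow H hg h hw m
  have h4 : ‖μ‖ ^ m * (N g w * N g v) ≤ C * Real.exp (-(c * (m * T))) * ‖ν‖ ^ m *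
      (N g w * N g v) := by
    calc ‖μ‖ ^ m * (N g w * N g v)
        = (‖μ‖ ^ m * ‖ν‖ ^ m) * (N (flow g (m * T)) w * N g v) := by rw [← h3]; ring
      _ ≤ (‖μ‖ ^ m * ‖ν‖ ^ m) * (C * Real.exp (-(c * (m * T))) *
          (N (flow g (m * T)) v * N g w)) :=
          mul_le_mul_of_nonneg_left h1 (by positivity)
      _ = C * Real.exp (-(c * (m * T))) * ‖ν‖ ^ m * (N g w * (‖μ‖ ^ m * N (flow g (m * T)) v)) := by
          ring
      _ = _ := by rw [h2]
  have h5 : ‖μ‖ ^ m ≤ C * Real.exp (-(c * (m * T))) * ‖ν‖ ^ m :=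
    le_of_mul_le_mul_right h4 (mul_pos hNw hNv)
  calc (‖μ‖ * Real.exp (c * T)) ^ m = ‖μ‖ ^ m * Real.exp (c * (m * T)) := by
        rw [mul_pow, ← Real.exp_nat_mul]
        congr 2
        ring
    _ ≤ C * Real.exp (-(c * (m * T))) * ‖ν‖ ^ m * Real.exp (c * (m * T)) :=
        mul_le_mul_of_nonneg_right h5 (Real.exp_pos _).le
    _ = C * ‖ν‖ ^ m * (Real.exp (-(c * (m * T))) * Real.exp (c * (m * T))) := by ring
    _ = C * ‖ν‖ ^ m := by rw [← Real.exp_add]; simp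

end splitting

end Pool.Agent.X302.C3
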