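import Pool.Agent.X302.C3.Flow

/-! Spectral gaps from dominated splittings. -/

set_option autoImplicit false
set_option linter.unusedSectionVars false

namespace Pool.Agent.X302.C3

open Matrix Topology
open scoped MatrixGroups

variable {n : Type} [Fintype n] [DecidableEq n]

theorem exists_eig (A : Matrix n n ℂ) (p : Submodule ℂ (n → ℂ)) (hp : ∀ v ∈ p, A *ᵥ v ∈ p)
    (hne : p ≠ ⊥) : ∃ (μ : ℂ) (v : n → ℂ), v ∈ p ∧ v ≠ 0 ∧ A *ᵥ v = μ • v := by
  have hnt : Nontrivial p := Submodule.nontrivial_iff_ne_bot.2 hne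
  obtain ⟨μ, hμ⟩ := Module.End.exists_eigenvalue
    ((toLin' A).restrict (p := p) (q := p) fun v hv => by rw [toLin'_apply]; exact hp v hv)
  obtain ⟨v, hv⟩ := hμ.exists_hasEigenvector
  refine ⟨μ, v.1, v.2, fun h0 => hv.2 (Subtype.ext h0), ?_⟩
  have h1 := congrArg Subtype.val hv.apply_eq_smul
  rw [LinearMap.coe_restrict_apply, toLin'_apply] at h1
  exact h1

/-- The kernel of a matrix. -/
noncomputable def kerM (P : Matrix n n ℂ) : Submodule ℂ (n → ℂ) := LinearMap.ker (toLin' P)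

theorem mem_kerM {P : Matrix n n ℂ} {v : n → ℂ} : v ∈ kerM P ↔ P *ᵥ v = 0 := by
  unfold kerM
  rw [LinearMap.mem_ker, toLin'_apply]

theorem finrank_kerM (P : Matrix n n ℂ) :
    P.rank + Module.finrank ℂ (kerM P) = Fintype.card n := by
  have h := LinearMap.finrank_range_add_finrank_ker (toLin' P)
  rw [Module.finrank_fintype_fun_eq_card] at h
  rw [Matrix.rank_eq_finrank_range_toLin P (Pi.basisFun ℂ n) (Pi.basisFun ℂ n),
    Matrix.toLin_eq_toLin']
  exact h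

theorem rank_le_one_sub {P : Matrix n n ℂ} {v : n → ℂ} :
    P *ᵥ v = v ↔ v ∈ kerM (1 - P) := by
  rw [mem_kerM, sub_mulVec, one_mulVec, sub_eq_zero, eq_comm]

theorem eig_range {A P : Matrix n n ℂ} (hc : P * A = A * P) (hP : P * P = P) (h0 : P.rank ≠ 0) :
    ∃ (μ : ℂ) (v : n → ℂ), P *ᵥ v = v ∧ v ≠ 0 ∧ A *ᵥ v = μ • v := by
  obtain ⟨μ, v, h1, h2, h3⟩ := exists_eig A (kerM (1 - P)) (by
    intro v hv
    rw [← rank_le_one_sub] at hv ⊢
    rw [mulVec_mulVec, hc, ← mulVec_mulVec, hv]) (by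
    intro hb
    apply h0
    have hP0 : P = 0 := by
      ext i j
      have h1 : P *ᵥ (Pi.single j 1) ∈ kerM (1 - P) := by
        rw [← rank_le_one_sub, mulVec_mulVec, hP]
      rw [hb, Submodule.mem_bot] at h1
      have h2 := congrFun h1 i
      rw [mulVec_single_one] at h2
      exact h2
    rw [hP0, rank_zero])
  exact ⟨μ, v, (rank_le_one_sub).2 h1, h2, h3⟩

theorem eig_ker {A P : Matrix n n ℂ} (hc : P * A = A * P) (h0 : P.rank < Fintype.card n) :
    ∃ (ν : ℂ) (w : n → ℂ), P *ᵥ w = 0 ∧ w ≠ 0 ∧ A *ᵥ w = ν • w := by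
  obtain ⟨μ, v, h1, h2, h3⟩ := exists_eig A (kerM P) (by
    intro v hv
    rw [mem_kerM] at hv ⊢
    rw [mulVec_mulVec, hc, ← mulVec_mulVec, hv, mulVec_zero]) (by
    intro hb
    have h1 := finrank_kerM P
    rw [hb, finrank_bot] at h1
    omega)
  exact ⟨μ, v, mem_kerM.1 h1, h2, h3⟩

/-- If `μ` is a multiple root of the characteristic polynomial, `P` is a projection of rank one which
commutes with `A`, then `A` has an eigenvector in the kernel of `P` with the eigenvalue `μ`. -/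
theorem eig_ker_double {A P : Matrix n n ℂ} (hc : P * A = A * P) (h1 : P.rank = 1) {μ : ℂ}
    (hμ : 2 ≤ A.charpoly.rootMultiplicity μ) : ∃ w : n → ℂ, P *ᵥ w = 0 ∧ w ≠ 0 ∧ A *ᵥ w = μ • w := by
  set W : Submodule ℂ (n → ℂ) := Module.End.maxGenEigenspace (toLin' A) μ with hW
  have hWd : 2 ≤ Module.finrank ℂ W := by
    rw [hW, LinearMap.finrank_maxGenEigenspace_eq, Matrix.charpoly_toLin']
    exact hμ
  have hnd : W ⊓ kerM P ≠ ⊥ := by
    intro hb
    have h2 := Submodule.finrank_add_finrank_le_of_disjoint (disjoint_iff.2 hb)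
    rw [Module.finrank_fintype_fun_eq_card] at h2
    have h3 := finrank_kerM P
    omega
  obtain ⟨ν, w, hw, hw0, hAw⟩ := exists_eig A (W ⊓ kerM P) (by
    rintro v ⟨hv1, hv2⟩
    refine ⟨?_, ?_⟩
    · have := Module.End.mapsTo_maxGenEigenspace_of_comm (f := toLin' A) (g := toLin' A)
        (Commute.refl _) μ hv1
      rwa [toLin'_apply] at this
    · have hv2' := mem_kerM.1 hv2
      refine mem_kerM.2 ?_
      rw [mulVec_mulVec, hc, ← mulVec_mulVec, hv2', mulVec_zero]) hnd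
  refine ⟨w, mem_kerM.1 hw.2, hw0, ?_⟩
  have h4 : ν = μ := by
    by_contra hne
    obtain ⟨k, hk⟩ := (Module.End.mem_maxGenEigenspace _ _ _).1 hw.1
    have h5 : ∀ j : ℕ, ((toLin' A - μ • (1 : Module.End ℂ (n → ℂ))) ^ j) w = (ν - μ) ^ j • w := by
      intro j
      induction j with
      | zero => simp
      | succ j ih =>
        rw [pow_succ', Module.End.mul_apply, ih, map_smul]
        have : (toLin' A - μ • (1 : Module.End ℂ (n → ℂ))) w = (ν - μ) • w := by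
          rw [LinearMap.sub_apply, toLin'_apply, hAw, LinearMap.smul_apply, Module.End.one_apply,
            sub_smul]
        rw [this, smul_smul, pow_succ]
    rw [h5] at hk
    rcases smul_eq_zero.1 hk with h6 | h6
    · exact pow_ne_zero k (sub_ne_zero.2 hne) h6
    · exact hw0 h6
  rw [hAw, h4]

section gap

variable {D : SurfaceGroup} {k : ℕ} {C c : ℝ} {ρ : Rep D.Γ n} {P : SL(2, ℝ) → Matrix n n ℂ}
  {N : SL(2, ℝ) → (n → ℂ) → ℝ} {γ : D.Γ} {g : SL(2, ℝ)} {T : ℝ}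

theorem mem_F (hγ : γ ∈ D.simple) (hT : 0 < T)
    (h : (γ : SL(2, ℝ)) * g = flow g T ∨ (γ : SL(2, ℝ)) * g = -flow g T) : g ∈ D.F :=
  subset_closure ⟨γ, hγ, T, hT, h⟩

theorem mul_le_Len (H : IsSplitting D k C c ρ P N) (hk0 : 0 < k) (hk : k < Fintype.card n)
    (hγ : γ ∈ D.simple) (hT : 0 < T)
    (h : (γ : SL(2, ℝ)) * g = flow g T ∨ (γ : SL(2, ℝ)) * g = -flow g T) :
    c * T ≤ Len (Rep.cls ρ) γ := by
  have hg := mem_F hγ hT h
  have hc := comm_proj H hg h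
  obtain ⟨hP, hr⟩ := H.proj g hg
  obtain ⟨μ, v, hPv, hv0, hv⟩ := eig_range hc hP (by omega)
  obtain ⟨ν, w, hPw, hw0, hw⟩ := eig_ker hc (by omega : (P g).rank < Fintype.card n)
  have h1 := eig_gap H hg hT h hv0 hw0 hv hw hPv hPw
  have hμ0 : μ ≠ 0 := by
    rintro rfl
    have h2 := norm_flow H hg h hv 1
    rw [norm_zero, pow_one, zero_mul] at h2
    exact ((H.norm g hg).pos v hv0).ne h2
  have hμ : 0 < ‖μ‖ := norm_pos_iff.2 hμ0
  have hinv : Rep.mat ρ γ⁻¹ *ᵥ v = μ⁻¹ • v := by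
    have h2 : Rep.mat ρ γ⁻¹ *ᵥ (Rep.mat ρ γ *ᵥ v) = v := by
      rw [mulVec_mulVec, ← mat_mul, inv_mul_cancel, mat_one, one_mulVec]
    rw [hv, mulVec_smul] at h2
    calc Rep.mat ρ γ⁻¹ *ᵥ v = μ⁻¹ • (μ • (Rep.mat ρ γ⁻¹ *ᵥ v)) := by
          rw [smul_smul, inv_mul_cancel₀ hμ0, one_smul]
      _ = μ⁻¹ • v := by rw [h2]
  have h3 : ‖ν‖ ≤ rad (Rep.mat ρ γ).charpoly := le_rad (isRoot_of_eigenvector hw0 hw)
  have h4 : ‖μ‖⁻¹ ≤ rad (Rep.mat ρ γ⁻¹).charpoly := by
    rw [← norm_inv]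
    exact le_rad (isRoot_of_eigenvector hv0 hinv)
  have hν : 0 < ‖ν‖ := lt_of_lt_of_le (by positivity) h1
  have h5 := Real.log_le_log hν h3
  have h6 := Real.log_le_log (inv_pos.2 hμ) h4
  have h7 := Real.log_le_log (by positivity) h1
  rw [Real.log_mul hμ.ne' (Real.exp_pos _).ne', Real.log_exp] at h7
  rw [Real.log_inv] at h6
  rw [Len_cls]
  linarith

theorem not_rank_one (hc0 : 0 < c) (hq : ∀ γ : D.Γ, ∃ q : Polynomial ℂ,
    (Rep.mat ρ γ).charpoly = q * q) : ¬ SimpleAnosov D 1 C c ρ := by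
  rintro ⟨P, N, H⟩
  obtain ⟨γ, hγ⟩ := D.nonempty
  obtain ⟨a, -, ha⟩ := D.axis
  obtain ⟨g, T, hT, -, h⟩ := ha γ hγ
  have hg := mem_F hγ hT h
  have hc := comm_proj H hg h
  obtain ⟨hP, hr⟩ := H.proj g hg
  obtain ⟨μ, v, hPv, hv0, hv⟩ := eig_range hc hP (by omega)
  have hroot := isRoot_of_eigenvector hv0 hv
  obtain ⟨q, hq⟩ := hq γ
  have hne : (Rep.mat ρ γ).charpoly ≠ 0 := (charpoly_monic _).ne_zero
  have h2 : 2 ≤ (Rep.mat ρ γ).charpoly.rootMultiplicity μ := by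
    rw [Polynomial.le_rootMultiplicity_iff hne]
    rw [hq] at hroot ⊢
    rw [Polynomial.IsRoot.def, Polynomial.eval_mul, mul_self_eq_zero] at hroot
    rw [pow_two]
    exact mul_dvd_mul (Polynomial.dvd_iff_isRoot.2 hroot) (Polynomial.dvd_iff_isRoot.2 hroot)
  obtain ⟨w, hPw, hw0, hw⟩ := eig_ker_double hc hr h2
  have h3 := eig_gap H hg hT h hv0 hw0 hv hw hPv hPw
  have hμ : 0 < ‖μ‖ := by
    rw [norm_pos_iff]
    rintro rfl
    have h2 := norm_flow H hg h hv 1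
    rw [norm_zero, pow_one, zero_mul] at h2
    exact ((H.norm g hg).pos v hv0).ne h2
  have h4 : 1 < Real.exp (c * T) := Real.one_lt_exp_iff.2 (mul_pos hc0 hT)
  nlinarith

end gap

theorem rank_one_sub {P : Matrix n n ℂ} (hP : P * P = P) :
    (1 - P).rank + P.rank = Fintype.card n := by
  have h1 := finrank_kerM (1 - P)
  have h2 : Module.finrank ℂ (kerM (1 - P)) = P.rank := by
    rw [Matrix.rank_eq_finrank_range_toLin P (Pi.basisFun ℂ n) (Pi.basisFun ℂ n),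
      Matrix.toLin_eq_toLin']
    have h3 : kerM (1 - P) = LinearMap.range (toLin' P) := by
      ext v
      rw [← rank_le_one_sub, LinearMap.mem_range]
      constructor
      · intro h
        exact ⟨v, by rw [toLin'_apply, h]⟩
      · rintro ⟨u, rfl⟩
        rw [toLin'_apply, mulVec_mulVec, hP]
    rw [h3]
  omega

/-- If all characteristic polynomials are squares, the representation is not simple `d - 1`-Anosov. -/
theorem not_corank_one {k : ℕ} {C c : ℝ} {D : SurfaceGroup} {ρ : Rep D.Γ n} (hc0 : 0 < c)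
    (hk : k + 1 = Fintype.card n) (hq : ∀ γ : D.Γ, ∃ q : Polynomial ℂ,
    (Rep.mat ρ γ).charpoly = q * q) : ¬ SimpleAnosov D k C c ρ := by
  rintro ⟨P, N, H⟩
  obtain ⟨γ, hγ⟩ := D.nonempty
  obtain ⟨a, -, ha⟩ := D.axis
  obtain ⟨g, T, hT, -, h⟩ := ha γ hγ
  have hg := mem_F hγ hT h
  have hc := comm_proj H hg h
  obtain ⟨hP, hr⟩ := H.proj g hg
  obtain ⟨μ, w, hPw, hw0, hw⟩ := eig_ker hc (by omega)
  have hroot := isRoot_of_eigenvector hw0 hw
  obtain ⟨q, hq⟩ := hq γ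
  have hne : (Rep.mat ρ γ).charpoly ≠ 0 := (charpoly_monic _).ne_zero
  have h2 : 2 ≤ (Rep.mat ρ γ).charpoly.rootMultiplicity μ := by
    rw [Polynomial.le_rootMultiplicity_iff hne]
    rw [hq] at hroot ⊢
    rw [Polynomial.IsRoot.def, Polynomial.eval_mul, mul_self_eq_zero] at hroot
    rw [pow_two]
    exact mul_dvd_mul (Polynomial.dvd_iff_isRoot.2 hroot) (Polynomial.dvd_iff_isRoot.2 hroot)
  have hc' : (1 - P g) * Rep.mat ρ γ = Rep.mat ρ γ * (1 - P g) := by
    rw [sub_mul, mul_sub, hc, one_mul, mul_one]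
  have hr' : (1 - P g).rank = 1 := by
    have := rank_one_sub hP
    omega
  obtain ⟨v, hPv, hv0, hv⟩ := eig_ker_double hc' hr' h2
  have hPv' : P g *ᵥ v = v := by
    rw [sub_mulVec, one_mulVec, sub_eq_zero] at hPv
    exact hPv.symm
  have h3 := eig_gap H hg hT h hv0 hw0 hv hw hPv' hPw
  have hμ : 0 < ‖μ‖ := by
    rw [norm_pos_iff]
    rintro rfl
    have h2 := norm_flow H hg h hv 1
    rw [norm_zero, pow_one, zero_mul] at h2
    exact ((H.norm g hg).pos v hv0).ne h2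
  have h4 : 1 < Real.exp (c * T) := Real.one_lt_exp_iff.2 (mul_pos hc0 hT)
  nlinarith

end Pool.Agent.X302.C3
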