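import Pool.Agent.X302.C3.Dbl
import Pool.Agent.X302.C3.Count

/-! Simple Anosov representations from homomorphisms of `SL(2, ℝ)`. -/

set_option autoImplicit false
set_option linter.unusedSectionVars false

namespace Pool.Agent.X302.C3

open Matrix Topology
open scoped MatrixGroups

/-- A homomorphism of `SL(2, ℝ)` to `SL(n, ℂ)`, diagonal on the diagonal matrices. -/
structure Model (n : Type) [Fintype n] [DecidableEq n] where
  M : SL(2, ℝ) → Matrix n n ℂ
  mul : ∀ g h, M (g * h) = M g * M h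
  one : M 1 = 1
  det : ∀ g, (M g).det = 1
  cont : Continuous M
  ε : n → ℝ
  diag : ∀ t, M (diagEl t) = diagonal fun i => (Real.exp (ε i * t) : ℂ)
  σ : n → ℂ
  neg : M (-1) = diagonal σ
  σ_norm : ∀ i, ‖σ i‖ = 1
  hε : ∀ i, ε i = -(1 / 2) ∨ 0 ≤ ε i

namespace Model

variable {n : Type} [Fintype n] [DecidableEq n] (m : Model n)

/-- The representation. -/
noncomputable def rep (D : SurfaceGroup) : Rep D.Γ n :=
  (show SL(2, ℝ) →* Matrix.SpecialLinearGroup n ℂ from
    { toFun := fun g => ⟨m.M g, m.det g⟩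
      map_one' := Subtype.ext m.one
      map_mul' := fun g h => Subtype.ext (m.mul g h) }).comp D.Γ.subtype

theorem mat_rep (D : SurfaceGroup) (γ : D.Γ) : Rep.mat (m.rep D) γ = m.M (γ : SL(2, ℝ)) := rfl

theorem inv_mul (g : SL(2, ℝ)) : m.M g⁻¹ * m.M g = 1 := by
  rw [← m.mul, inv_mul_cancel, m.one]

theorem mul_inv (g : SL(2, ℝ)) : m.M g * m.M g⁻¹ = 1 := by
  rw [← m.mul, mul_inv_cancel, m.one]

/-- The projection to the coordinates with negative weight. -/
noncomputable def E : Matrix n n ℂ := diagonal fun i => if m.ε i < 0 then 1 else 0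

/-- The projections to the unstable bundle. -/
noncomputable def PP (g : SL(2, ℝ)) : Matrix n n ℂ := m.M g * m.E * m.M g⁻¹

/-- The norms. -/
noncomputable def NN (g : SL(2, ℝ)) (v : n → ℂ) : ℝ := ∑ i, ‖(m.M g⁻¹ *ᵥ v) i‖

theorem E_mul_E : m.E * m.E = m.E := by
  unfold E
  rw [diagonal_mul_diagonal]
  congr 1
  funext i
  split_ifs <;> simp

theorem rank_E : m.E.rank = Fintype.card {i // m.ε i < 0} := by
  unfold E
  rw [rank_diagonal]
  refine Fintype.card_congr (Equiv.subtypeEquivRight fun i => ?_)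
  by_cases h : m.ε i < 0 <;> simp [h]

theorem σ_sq (i : n) : m.σ i * m.σ i = 1 := by
  have h1 : m.M (-1) * m.M (-1) = 1 := by
    rw [← m.mul, neg_mul_neg, one_mul, m.one]
  rw [m.neg, diagonal_mul_diagonal] at h1
  have h2 := congrFun (congrFun h1 i) i
  rwa [diagonal_apply_eq, one_apply_eq] at h2

theorem conj_diag (t : ℝ) : m.M (diagEl t) * m.E * m.M (diagEl t)⁻¹ = m.E := by
  rw [diagEl_inv, m.diag, m.diag, E, diagonal_mul_diagonal, diagonal_mul_diagonal]
  congr 1
  funext i
  split_ifs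
  · rw [mul_one, ← Complex.ofReal_mul, ← Real.exp_add]
    simp
  · simp

theorem conj_neg : m.M (-1) * m.E * m.M (-1) = m.E := by
  rw [m.neg, E, diagonal_mul_diagonal, diagonal_mul_diagonal]
  congr 1
  funext i
  split_ifs
  · rw [mul_one, m.σ_sq]
  · simp

theorem isSplitting (D : SurfaceGroup) :
    IsSplitting D (Fintype.card {i // m.ε i < 0}) 1 (1 / 2) (m.rep D) m.PP m.NN where
  contP := ((m.cont.mul continuous_const).mul (m.cont.comp continuous_inv)).continuousOn
  contN := by
    refine Continuous.continuousOn ?_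
    refine continuous_finsetSum _ fun i _ => Continuous.norm ?_
    exact (continuous_apply i).comp
      (((m.cont.comp continuous_inv).comp continuous_fst).matrix_mulVec continuous_snd)
  norm g _ := by
    refine ⟨fun v hv => ?_, fun z v => ?_, fun v w => ?_⟩
    · have hne : m.M g⁻¹ *ᵥ v ≠ 0 := by
        intro h0
        apply hv
        have h1 : m.M g *ᵥ (m.M g⁻¹ *ᵥ v) = v := by
          rw [mulVec_mulVec, m.mul_inv, one_mulVec]
        rw [← h1, h0, mulVec_zero]
      obtain ⟨i, hi⟩ := Function.ne_iff.1 hne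
      exact Finset.sum_pos' (fun _ _ => norm_nonneg _) ⟨i, Finset.mem_univ i, norm_pos_iff.2 hi⟩
    · unfold NN
      rw [mulVec_smul, Finset.mul_sum]
      simp
    · unfold NN
      rw [mulVec_add, ← Finset.sum_add_distrib]
      exact Finset.sum_le_sum fun i _ => norm_add_le _ _
  proj g _ := by
    constructor
    · unfold PP
      calc m.M g * m.E * m.M g⁻¹ * (m.M g * m.E * m.M g⁻¹)
          = m.M g * m.E * (m.M g⁻¹ * m.M g) * m.E * m.M g⁻¹ := by simp only [mul_assoc]
        _ = m.M g * (m.E * m.E) * m.M g⁻¹ := by rw [m.inv_mul]; simp only [mul_assoc, one_mul]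
        _ = _ := by rw [m.E_mul_E]
    · unfold PP
      rw [rank_mul_eq_left_of_isUnit_det _ _ (by rw [m.det]; exact isUnit_one),
        rank_mul_eq_right_of_isUnit_det _ _ (by rw [m.det]; exact isUnit_one), m.rank_E]
  neg g _ := by
    have h : (-g)⁻¹ = -1 * g⁻¹ := by rw [inv_neg, neg_one_mul]
    have h' : -g = g * -1 := by rw [mul_neg_one]
    constructor
    · unfold PP
      rw [h, h', m.mul, m.mul]
      calc m.M g * m.M (-1) * m.E * (m.M (-1) * m.M g⁻¹)
          = m.M g * (m.M (-1) * m.E * m.M (-1)) * m.M g⁻¹ := by simp only [mul_assoc]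
        _ = _ := by rw [m.conj_neg]
    · funext v
      unfold NN
      rw [h, m.mul, m.neg]
      refine Finset.sum_congr rfl fun i _ => ?_
      rw [← mulVec_mulVec, mulVec_diagonal, norm_mul, m.σ_norm, one_mul]
  equiv g _ γ := by
    constructor
    · rw [m.mat_rep]
      unfold PP
      rw [_root_.mul_inv_rev, m.mul, m.mul]
      calc m.M γ * m.M g * m.E * (m.M g⁻¹ * m.M (γ : SL(2, ℝ))⁻¹) * m.M γ
          = m.M γ * (m.M g * m.E * m.M g⁻¹) * (m.M (γ : SL(2, ℝ))⁻¹ * m.M γ) := by
            simp only [mul_assoc]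
        _ = _ := by rw [m.inv_mul, mul_one]
    · intro v
      rw [m.mat_rep]
      unfold NN
      rw [mulVec_mulVec, ← m.mul]
      have e : (γ * g)⁻¹ * (γ : SL(2, ℝ)) = g⁻¹ := by group
      rw [e]
  inv g _ t := by
    unfold PP flow
    rw [_root_.mul_inv_rev, m.mul, m.mul]
    calc m.M g * m.M (diagEl t) * m.E * (m.M (diagEl t)⁻¹ * m.M g⁻¹)
        = m.M g * (m.M (diagEl t) * m.E * m.M (diagEl t)⁻¹) * m.M g⁻¹ := by
          simp only [mul_assoc]
      _ = _ := by rw [m.conj_diag]
  dom g _ t ht v w hv hw := by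
    set u := m.M g⁻¹ *ᵥ v with hu
    set u' := m.M g⁻¹ *ᵥ w with hu'
    have hE : ∀ x : n → ℂ, m.M g⁻¹ *ᵥ (m.PP g *ᵥ x) = m.E *ᵥ (m.M g⁻¹ *ᵥ x) := by
      intro x
      unfold PP
      rw [mulVec_mulVec, mulVec_mulVec]
      congr 1
      calc m.M g⁻¹ * (m.M g * m.E * m.M g⁻¹) = (m.M g⁻¹ * m.M g) * m.E * m.M g⁻¹ := by
            simp only [mul_assoc]
        _ = m.E * m.M g⁻¹ := by rw [m.inv_mul, one_mul]
    have h1 : ∀ i, ¬ m.ε i < 0 → u i = 0 := by
      intro i hi
      have h2 := congrFun (hE v) i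
      rw [hv, ← hu, E, mulVec_diagonal, if_neg hi, zero_mul] at h2
      exact h2
    have h3 : ∀ i, m.ε i < 0 → u' i = 0 := by
      intro i hi
      have h2 := congrFun (hE w) i
      rw [hw, mulVec_zero, ← hu', E, mulVec_diagonal, if_pos hi, one_mul] at h2
      exact h2.symm
    have key : ∀ x : n → ℂ, m.NN (flow g t) x =
        ∑ i, Real.exp (-(m.ε i * t)) * ‖(m.M g⁻¹ *ᵥ x) i‖ := by
      intro x
      unfold NN flow
      rw [_root_.mul_inv_rev, m.mul, diagEl_inv, m.diag]
      refine Finset.sum_congr rfl fun i _ => ?_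
      rw [← mulVec_mulVec, mulVec_diagonal, norm_mul, mul_neg, Complex.norm_real,
        Real.norm_of_nonneg (Real.exp_pos _).le]
    have e1 : m.NN (flow g t) w ≤ m.NN g w := by
      rw [key, ← hu']
      unfold NN
      rw [← hu']
      refine Finset.sum_le_sum fun i _ => ?_
      by_cases hi : m.ε i < 0
      · rw [h3 i hi, norm_zero, mul_zero]
      · have h4 : Real.exp (-(m.ε i * t)) ≤ 1 := by
          rw [Real.exp_le_one_iff]
          have := mul_nonneg (not_lt.1 hi) ht
          linarith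
        exact mul_le_of_le_one_left (norm_nonneg _) h4
    have e2 : m.NN (flow g t) v = Real.exp (t / 2) * m.NN g v := by
      rw [key, ← hu]
      unfold NN
      rw [← hu, Finset.mul_sum]
      refine Finset.sum_congr rfl fun i _ => ?_
      by_cases hi : m.ε i < 0
      · rcases m.hε i with h4 | h4
        · rw [h4]
          congr 2
          ring
        · exact absurd hi (not_lt.2 h4)
      · rw [h1 i hi, norm_zero, mul_zero, mul_zero]
    have hN : 0 ≤ m.NN g v := Finset.sum_nonneg fun _ _ => norm_nonneg _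
    rw [e2]
    calc m.NN (flow g t) w * m.NN g v ≤ m.NN g w * m.NN g v := mul_le_mul_of_nonneg_right e1 hN
      _ = 1 * (Real.exp (-(1 / 2 * t)) * Real.exp (t / 2)) * (m.NN g v * m.NN g w) := by
          have e3 : Real.exp (-(1 / 2 * t)) * Real.exp (t / 2) = 1 := by
            rw [← Real.exp_add]
            have : -(1 / 2 * t) + t / 2 = 0 := by ring
            rw [this, Real.exp_zero]
          rw [e3]
          ring
      _ = _ := by ring

theorem charpoly_simple {γ g : SL(2, ℝ)} {T : ℝ} (h : γ * g = flow g T ∨ γ * g = -flow g T) :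
    ∃ τ : n → ℂ, (∀ i, ‖τ i‖ = Real.exp (m.ε i * T)) ∧
      (m.M γ).charpoly = (diagonal τ).charpoly := by
  have conj : ∀ a : SL(2, ℝ), (m.M (g * a * g⁻¹)).charpoly = (m.M a).charpoly := by
    intro a
    rw [m.mul, Matrix.charpoly_mul_comm, ← m.mul]
    congr 2
    group
  have hn : ∀ x : ℝ, ‖((Real.exp x : ℝ) : ℂ)‖ = Real.exp x := fun x => by
    rw [Complex.norm_real, Real.norm_of_nonneg (Real.exp_pos _).le]
  rcases h with h | h
  · refine ⟨fun i => (Real.exp (m.ε i * T) : ℂ), fun i => hn _, ?_⟩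
    have e : γ = g * diagEl T * g⁻¹ := by
      rw [eq_mul_inv_iff_mul_eq]; exact h
    rw [e, conj, m.diag]
  · refine ⟨fun i => (m.σ i * (Real.exp (m.ε i * T) : ℂ)), fun i => ?_, ?_⟩
    · rw [norm_mul, m.σ_norm, one_mul, hn]
    · have e : γ = g * (-1 * diagEl T) * g⁻¹ := by
        rw [eq_mul_inv_iff_mul_eq, h]
        unfold flow
        rw [neg_one_mul, mul_neg]
      rw [e, conj, m.mul, m.neg, m.diag, diagonal_mul_diagonal]

theorem card_filter {τ : n → ℂ} {T : ℝ} (hτ : ∀ i, ‖τ i‖ = Real.exp (m.ε i * T)) (s : ℝ) :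
    ((diagonal τ).charpoly.roots.filter fun z => ‖z‖ < s).card =
      ∑ i, if Real.exp (m.ε i * T) < s then 1 else 0 := by
  have h1 : (diagonal τ).charpoly =
      ((Finset.univ.val.map τ).map fun a => Polynomial.X - Polynomial.C a).prod := by
    rw [charpoly_diagonal, Multiset.map_map]
    rfl
  rw [h1, Polynomial.roots_multiset_prod_X_sub_C, Multiset.filter_map, Multiset.card_map,
    ← Finset.card_filter]
  simp only [Function.comp_def, hτ]
  rfl

end Model

end Pool.Agent.X302.C3
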