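import Pool.Agent.X302.C3.Model

/-! Direct sums of the standard representation of `SL(2, ℝ)` and of trivial representations. -/

set_option autoImplicit false
set_option linter.unusedSectionVars false

namespace Pool.Agent.X302.C3

open Matrix Topology
open scoped MatrixGroups

namespace Model

variable {n n' : Type} [Fintype n] [DecidableEq n] [Fintype n'] [DecidableEq n']

/-- The standard representation. -/
noncomputable def base : Model (Fin 2) where
  M g := (g : Matrix (Fin 2) (Fin 2) ℝ).map (algebraMap ℝ ℂ)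
  mul g h := by rw [Matrix.SpecialLinearGroup.coe_mul, Matrix.map_mul]
  one := by rw [Matrix.SpecialLinearGroup.coe_one, Matrix.map_one _ (map_zero _) (map_one _)]
  det g := by rw [← RingHom.mapMatrix_apply, ← RingHom.map_det, g.det_coe, map_one]
  cont := Continuous.matrix_map continuous_subtype_val Complex.continuous_ofReal
  ε := ![1 / 2, -(1 / 2)]
  diag t := by
    ext i j
    fin_cases i <;> fin_cases j <;> simp [diagEl] <;> ring_nf
  σ := ![-1, -1]
  neg := by
    ext i j
    fin_cases i <;> fin_cases j <;> simp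
  σ_norm i := by fin_cases i <;> simp
  hε i := by fin_cases i <;> norm_num

/-- The trivial representation. -/
noncomputable def triv (r : ℕ) : Model (Fin r) where
  M _ := 1
  mul _ _ := (mul_one _).symm
  one := rfl
  det _ := det_one
  cont := continuous_const
  ε _ := 0
  diag t := by simp
  σ _ := 1
  neg := by simp
  σ_norm _ := by simp
  hε _ := Or.inr le_rfl

/-- The direct sum. -/
noncomputable def dsum (m : Model n) (m' : Model n') : Model (n ⊕ n') where
  M g := fromBlocks (m.M g) 0 0 (m'.M g)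
  mul g h := by rw [fromBlocks_multiply, m.mul, m'.mul]; simp
  one := by rw [m.one, m'.one, fromBlocks_one]
  det g := by rw [det_fromBlocks_zero₂₁, m.det, m'.det, mul_one]
  cont := Continuous.matrix_fromBlocks m.cont continuous_const continuous_const m'.cont
  ε := Sum.elim m.ε m'.ε
  diag t := by
    rw [m.diag, m'.diag, fromBlocks_diagonal]
    congr 1
    funext i
    rcases i with i | i <;> rfl
  σ := Sum.elim m.σ m'.σ
  neg := by rw [m.neg, m'.neg, fromBlocks_diagonal]
  σ_norm i := by
    rcases i with i | i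
    · exact m.σ_norm i
    · exact m'.σ_norm i
  hε i := by
    rcases i with i | i
    · exact m.hε i
    · exact m'.hε i

theorem simpleAnosov (m : Model n) (D : SurfaceGroup) :
    SimpleAnosov D (∑ i, if m.ε i < 0 then 1 else 0) 1 (1 / 2) (m.rep D) := by
  rw [← Finset.card_filter, ← Fintype.card_subtype]
  exact ⟨_, _, m.isSplitting D⟩

/-- A representation with the characteristic polynomials of `m.rep D` is simple `k`-Anosov only if
`k` is a number of weights which are smaller than a threshold. -/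
theorem exists_threshold' (m : Model n) {D : SurfaceGroup} {k : ℕ} {C c : ℝ} {ρ : Rep D.Γ n}
    (hρ : Rep.cls ρ = Rep.cls (m.rep D)) (hc : 0 < c) (hk : k < Fintype.card n)
    (h : SimpleAnosov D k C c ρ) :
    ∃ T s : ℝ, 0 < T ∧ (∑ i, if Real.exp (m.ε i * T) < s then 1 else 0) = k := by
  obtain ⟨P, N, H⟩ := h
  obtain ⟨γ, hγ⟩ := D.nonempty
  obtain ⟨a, -, ha⟩ := D.axis
  obtain ⟨g, T, hT, -, h⟩ := ha γ hγ
  obtain ⟨s, hs⟩ := exists_threshold H hc hk hγ hT h
  obtain ⟨τ, hτ, hch⟩ := m.charpoly_simple h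
  have h1 : (Rep.mat ρ γ).charpoly = (Rep.mat (m.rep D) γ).charpoly :=
    (Quotient.exact hρ : ∀ γ, _) γ
  rw [h1, m.mat_rep, hch, m.card_filter hτ] at hs
  exact ⟨T, s, hT, hs⟩

/-- `ι ⊕ 1 ⊕ ⋯ ⊕ 1`. -/
noncomputable def one' (r : ℕ) : Model (Fin 2 ⊕ Fin r) := base.dsum (triv r)

/-- `ι ⊕ ι ⊕ 1 ⊕ ⋯ ⊕ 1`. -/
noncomputable def two' (r : ℕ) : Model ((Fin 2 ⊕ Fin 2) ⊕ Fin r) := (base.dsum base).dsum (triv r)

theorem one'_neg (r : ℕ) : (∑ i, if (one' r).ε i < 0 then 1 else 0) = 1 := by
  rw [Fintype.sum_sum_type, Fin.sum_univ_two]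
  simp [one', dsum, base, triv]

theorem two'_neg (r : ℕ) : (∑ i, if (two' r).ε i < 0 then 1 else 0) = 2 := by
  rw [Fintype.sum_sum_type, Fintype.sum_sum_type, Fin.sum_univ_two, Fin.sum_univ_two]
  norm_num [two', dsum, base, triv]

theorem one'_count (r : ℕ) {T s : ℝ} {k : ℕ} (hT : 0 < T)
    (h : (∑ i, if Real.exp ((one' r).ε i * T) < s then 1 else 0) = k) :
    k = 0 ∨ k = 1 ∨ k = r + 1 ∨ k = r + 2 := by
  have h1 : Real.exp (-(1 / 2) * T) < 1 := by
    rw [Real.exp_lt_one_iff]
    linarith
  have h2 : 1 < Real.exp (1 / 2 * T) := by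
    rw [Real.one_lt_exp_iff]
    linarith
  have h3 : (if Real.exp (1 / 2 * T) < s then 1 else 0) +
      (if Real.exp (-(1 / 2) * T) < s then 1 else 0) + r * (if 1 < s then 1 else 0) = k := by
    rw [← h, Fintype.sum_sum_type, Fin.sum_univ_two]
    simp [one', dsum, base, triv]
  by_cases a1 : Real.exp (1 / 2 * T) < s
  · have a2 : 1 < s := h2.trans a1
    have a3 : Real.exp (-(1 / 2) * T) < s := h1.trans a2
    rw [if_pos a1, if_pos a2, if_pos a3] at h3
    omega
  · by_cases a2 : 1 < s
    · have a3 : Real.exp (-(1 / 2) * T) < s := h1.trans a2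
      rw [if_neg a1, if_pos a2, if_pos a3] at h3
      omega
    · rw [if_neg a1, if_neg a2] at h3
      split_ifs at h3 <;> omega

theorem two'_count (r : ℕ) {T s : ℝ} {k : ℕ} (hT : 0 < T)
    (h : (∑ i, if Real.exp ((two' r).ε i * T) < s then 1 else 0) = k) :
    k = 0 ∨ k = 2 ∨ k = r + 2 ∨ k = r + 4 := by
  have h1 : Real.exp (-(1 / 2) * T) < 1 := by
    rw [Real.exp_lt_one_iff]
    linarith
  have h2 : 1 < Real.exp (1 / 2 * T) := by
    rw [Real.one_lt_exp_iff]
    linarith
  have h3 : ((if Real.exp (1 / 2 * T) < s then 1 else 0) +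
      (if Real.exp (-(1 / 2) * T) < s then 1 else 0)) +
      ((if Real.exp (1 / 2 * T) < s then 1 else 0) +
      (if Real.exp (-(1 / 2) * T) < s then 1 else 0)) + r * (if 1 < s then 1 else 0) = k := by
    rw [← h, Fintype.sum_sum_type, Fintype.sum_sum_type, Fin.sum_univ_two, Fin.sum_univ_two]
    simp [two', dsum, base, triv]
  by_cases a1 : Real.exp (1 / 2 * T) < s
  · have a2 : 1 < s := h2.trans a1
    have a3 : Real.exp (-(1 / 2) * T) < s := h1.trans a2
    rw [if_pos a1, if_pos a2, if_pos a3] at h3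
    omega
  · by_cases a2 : 1 < s
    · have a3 : Real.exp (-(1 / 2) * T) < s := h1.trans a2
      rw [if_neg a1, if_pos a2, if_pos a3] at h3
      omega
    · rw [if_neg a1, if_neg a2] at h3
      split_ifs at h3 <;> omega

/-- The same homomorphism with the coordinates indexed by another set. -/
noncomputable def reindex (m : Model n) (e : n ≃ n') : Model n' where
  M g := (m.M g).submatrix e.symm e.symm
  mul g h := by rw [m.mul, submatrix_mul_equiv]
  one := by rw [m.one, submatrix_one_equiv]
  det g := by rw [det_submatrix_equiv_self, m.det]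
  cont := m.cont.matrix_submatrix _ _
  ε := m.ε ∘ e.symm
  diag t := by rw [m.diag, submatrix_diagonal_equiv]; rfl
  σ := m.σ ∘ e.symm
  neg := by rw [m.neg, submatrix_diagonal_equiv]
  σ_norm i := m.σ_norm _
  hε i := m.hε _

theorem sum_reindex (m : Model n) (e : n ≃ n') (f : ℝ → ℕ) :
    ∑ i, f ((m.reindex e).ε i) = ∑ i, f (m.ε i) :=
  Equiv.sum_comp e.symm fun i => f (m.ε i)

end Model

/-- For `d ≥ 4` and `0 < k < d` a representation is simple `j`-Anosov for some `j`, and no
representation of its class is simple `k`-Anosov. -/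
theorem exists_rep (D : SurfaceGroup) (n : Type) [Fintype n] [DecidableEq n]
    (hd : 4 ≤ Fintype.card n) {k : ℕ} (hk0 : 0 < k) (hk : k < Fintype.card n) :
    ∃ ρ₀ : Rep D.Γ n, ∃ j, (j = 1 ∨ j = 2) ∧ SimpleAnosov D j 1 (1 / 2) ρ₀ ∧
      ∀ ρ : Rep D.Γ n, Rep.cls ρ = Rep.cls ρ₀ → ∀ C c : ℝ, 0 < c → ¬ SimpleAnosov D k C c ρ := by
  by_cases h : k = 1 ∨ k = Fintype.card n - 1
  · have e : (Fin 2 ⊕ Fin 2) ⊕ Fin (Fintype.card n - 4) ≃ n := Fintype.equivOfCardEq (by
      simp only [Fintype.card_sum, Fintype.card_fin]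
      omega)
    refine ⟨((Model.two' _).reindex e).rep D, 2, Or.inr rfl, ?_, ?_⟩
    · have := ((Model.two' _).reindex e).simpleAnosov D
      rwa [Model.sum_reindex _ e fun x => if x < 0 then 1 else 0, Model.two'_neg] at this
    · intro ρ hρ C c hc hA
      obtain ⟨T, s, hT, hs⟩ := Model.exists_threshold' _ hρ hc hk hA
      rw [Model.sum_reindex _ e fun x => if Real.exp (x * T) < s then 1 else 0] at hs
      have := Model.two'_count _ hT hs
      omega
  · have e : Fin 2 ⊕ Fin (Fintype.card n - 2) ≃ n := Fintype.equivOfCardEq (by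
      simp only [Fintype.card_sum, Fintype.card_fin]
      omega)
    refine ⟨((Model.one' _).reindex e).rep D, 1, Or.inl rfl, ?_, ?_⟩
    · have := ((Model.one' _).reindex e).simpleAnosov D
      rwa [Model.sum_reindex _ e fun x => if x < 0 then 1 else 0, Model.one'_neg] at this
    · intro ρ hρ C c hc hA
      obtain ⟨T, s, hT, hs⟩ := Model.exists_threshold' _ hρ hc hk hA
      rw [Model.sum_reindex _ e fun x => if Real.exp (x * T) < s then 1 else 0] at hs
      have := Model.one'_count _ hT hs
      omega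

end Pool.Agent.X302.C3
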