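import Mathlib

/-! Word length of conjugacy classes. -/

namespace Pool.Agent.X302.C3

variable {G : Type*} [Group G]

/-- The lengths of the words in `S ∪ S⁻¹` which represent a conjugate of `γ`. -/
def lens (S : Set G) (γ : G) : Set ℕ :=
  {n | ∃ (δ : G) (l : List G), l.length = n ∧ (∀ x ∈ l, x ∈ S ∨ x⁻¹ ∈ S) ∧ l.prod = δ * γ * δ⁻¹}

/-- The least length of a word in `S ∪ S⁻¹` which represents a conjugate of `γ`. -/
noncomputable def clen (S : Set G) (γ : G) : ℕ := sInf (lens S γ)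

theorem exists_word {S : Set G} (hS : Subgroup.closure S = ⊤) (γ : G) :
    ∃ l : List G, (∀ x ∈ l, x ∈ S ∨ x⁻¹ ∈ S) ∧ l.prod = γ := by
  have h : γ ∈ (Subgroup.closure S).toSubmonoid := by rw [hS]; trivial
  rw [Subgroup.closure_toSubmonoid] at h
  obtain ⟨l, h1, h2⟩ := Submonoid.exists_list_of_mem_closure h
  exact ⟨l, fun x hx => (h1 x hx).imp id fun h => Set.mem_inv.1 h, h2⟩

theorem clen_spec {S : Set G} (hS : Subgroup.closure S = ⊤) (γ : G) : clen S γ ∈ lens S γ := by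
  refine Nat.sInf_mem ?_
  obtain ⟨l, hl, hp⟩ := exists_word hS γ
  exact ⟨l.length, 1, l, rfl, hl, by simp [hp]⟩

theorem clen_le {S : Set G} {γ δ : G} {l : List G} (hl : ∀ x ∈ l, x ∈ S ∨ x⁻¹ ∈ S)
    (hp : l.prod = δ * γ * δ⁻¹) : clen S γ ≤ l.length :=
  Nat.sInf_le ⟨δ, l, rfl, hl, hp⟩

theorem exists_subst {S : Set G} (hfin : S.Finite) (hS : Subgroup.closure S = ⊤) (ψ : G ≃* G) :
    ∃ (M : ℕ), ∀ l : List G, (∀ x ∈ l, x ∈ S ∨ x⁻¹ ∈ S) →
      ∃ l' : List G, (∀ x ∈ l', x ∈ S ∨ x⁻¹ ∈ S) ∧ l'.prod = ψ l.prod ∧ l'.length ≤ M * l.length := by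
  choose w hw hwp using fun γ => exists_word hS γ
  have hT : (S ∪ S⁻¹).Finite := hfin.union hfin.inv
  obtain ⟨M, hM⟩ : ∃ M : ℕ, ∀ x ∈ S ∪ S⁻¹, (w (ψ x)).length ≤ M := by
    obtain ⟨M, hM⟩ := (hT.image fun x => (w (ψ x)).length).bddAbove
    exact ⟨M, fun x hx => hM ⟨x, hx, rfl⟩⟩
  refine ⟨M, fun l => ?_⟩
  induction l with
  | nil => intro _; exact ⟨[], by simp, by simp, by simp⟩
  | cons a l ih =>
    intro hl
    obtain ⟨l', h1, h2, h3⟩ := ih fun x hx => hl x (List.mem_cons_of_mem _ hx)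
    refine ⟨w (ψ a) ++ l', fun x hx => ?_, ?_, ?_⟩
    · rcases List.mem_append.1 hx with hx | hx
      · exact hw _ x hx
      · exact h1 x hx
    · rw [List.prod_append, hwp, h2, List.prod_cons, map_mul]
    · have ha : a ∈ S ∪ S⁻¹ := by
        rcases hl a (List.mem_cons_self) with h | h
        · exact Or.inl h
        · exact Or.inr (Set.mem_inv.2 h)
      rw [List.length_append, List.length_cons]
      have := hM a ha
      nlinarith

theorem exists_clen_map_le {S : Set G} (hfin : S.Finite) (hS : Subgroup.closure S = ⊤)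
    (ψ : G ≃* G) : ∃ M : ℕ, ∀ γ, clen S (ψ γ) ≤ M * clen S γ := by
  obtain ⟨M, hM⟩ := exists_subst hfin hS ψ
  refine ⟨M, fun γ => ?_⟩
  obtain ⟨δ, l, hlen, hl, hp⟩ := clen_spec hS γ
  obtain ⟨l', h1, h2, h3⟩ := hM l hl
  rw [← hlen]
  refine le_trans (clen_le (δ := ψ δ) h1 ?_) h3
  rw [h2, hp, map_mul, map_mul, map_inv]

end Pool.Agent.X302.C3
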